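import Pool.Agent.K7.H65.G2.Norm

set_option autoImplicit false
set_option linter.unusedSectionVars false

/-!
# Ideals of a Dedekind domain with an action of the symmetric group of degree three
-/

namespace Pool.Agent.K7.H65.G4

open Ideal Finset

section

variable {R B : Type*} [CommRing R] [CommRing B] [IsDedekindDomain B]

theorem map_le_iff (g : B ≃+* B) (J Q : Ideal B) :
    J.map (g : B →+* B) ≤ Q ↔ J ≤ Q.comap (g : B →+* B) := Ideal.map_le_iff_le_comap

theorem map_ne_bot (g : B ≃+* B) {I : Ideal B} (hI : I ≠ ⊥) : I.map (g : B →+* B) ≠ ⊥ := by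
  intro h
  apply hI
  rw [Ideal.map_eq_bot_iff_of_injective (f := (g : B →+* B)) g.injective] at h
  exact h

/-- The product of the conjugates of `I` is generated by the norms of the elements of `I`. -/
theorem span_norms {ι : Type*} [Fintype ι] (g : ι → B ≃+* B) {I : Ideal B} (hI : I ≠ ⊥) :
    Ideal.span {w | ∃ x ∈ I, w = ∏ i, g i x} = ∏ i, I.map (g i : B →+* B) := by
  classical
  have hle : Ideal.span {w | ∃ x ∈ I, w = ∏ i, g i x} ≤ ∏ i, I.map (g i : B →+* B) := by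
    rw [Ideal.span_le]
    rintro w ⟨x, hx, rfl⟩
    exact Ideal.prod_mem_prod fun i _ => Ideal.mem_map_of_mem (g i : B →+* B) hx
  have h0 : (∏ i, I.map (g i : B →+* B)) ≠ ⊥ := by
    rw [← Ideal.zero_eq_bot, prod_ne_zero_iff]
    intro i _
    rw [Ideal.zero_eq_bot]
    exact map_ne_bot (g i) hI
  obtain ⟨c, hc⟩ := Ideal.dvd_iff_le.2 hle
  suffices hct : c = ⊤ by rw [hc, hct, Ideal.mul_top]
  by_contra hne
  obtain ⟨Q, hQmax, hcQ⟩ := Ideal.exists_le_maximal c hne
  have hmax : ∀ i, (Q.comap (g i : B →+* B)).IsMaximal := fun i =>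
    Ideal.comap_isMaximal_of_surjective (g i : B →+* B) (g i).surjective (H := hQmax)
  have hnot : ∀ K : Ideal B, K ≠ ⊤ → ¬ I ≤ I * K := by
    intro K hK h
    apply hK
    have h1 : I * K = I * ⊤ := by
      rw [Ideal.mul_top]; exact le_antisymm Ideal.mul_le_left h
    exact mul_left_cancel₀ hI h1
  by_cases hfield : ∀ i, Q.comap (g i : B →+* B) ≠ ⊥
  · have hP0 : I * ∏ i, Q.comap (g i : B →+* B) ≠ 0 :=
      mul_ne_zero hI (prod_ne_zero_iff.2 fun i _ => hfield i)
    obtain ⟨a, ha⟩ := IsDedekindDomain.exists_sup_span_eq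
      (I := I * ∏ i, Q.comap (g i : B →+* B)) (J := I) Ideal.mul_le_left hP0
    have haI : a ∈ I := by
      rw [← ha]
      exact Ideal.mem_sup_right (Ideal.mem_span_singleton_self a)
    obtain ⟨J, hJ⟩ := Ideal.dvd_iff_le.2 ((Ideal.span_singleton_le_iff_mem _).2 haI)
    have hcx : c ∣ ∏ i, J.map (g i : B →+* B) := by
      have h1 : Ideal.span {∏ i, g i a} ≤ Ideal.span {w | ∃ x ∈ I, w = ∏ i, g i x} := by
        rw [Ideal.span_singleton_le_iff_mem]
        exact Ideal.subset_span ⟨a, haI, rfl⟩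
      have h2 : Ideal.span {∏ i, g i a} = (∏ i, I.map (g i : B →+* B)) *
          ∏ i, J.map (g i : B →+* B) := by
        rw [← prod_mul_distrib, ← Ideal.prod_span_singleton]
        refine prod_congr rfl fun i _ => ?_
        rw [← Ideal.map_mul, ← hJ, Ideal.map_span, Set.image_singleton]
        rfl
      rw [h2, hc] at h1
      exact (mul_dvd_mul_iff_left h0).1 (Ideal.dvd_iff_le.2 h1)
    have hQJ : ∏ i, J.map (g i : B →+* B) ≤ Q := (Ideal.le_of_dvd hcx).trans hcQ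
    obtain ⟨i, -, hi⟩ := (hQmax.isPrime.prod_le).1 hQJ
    rw [map_le_iff] at hi
    have h5 : a ∈ I * Q.comap (g i : B →+* B) := by
      have : a ∈ I * J := by rw [← hJ]; exact Ideal.mem_span_singleton_self a
      exact Ideal.mul_mono_right hi this
    apply hnot _ (hmax i).ne_top
    calc I = (I * ∏ i, Q.comap (g i : B →+* B)) ⊔ Ideal.span {a} := ha.symm
      _ ≤ I * Q.comap (g i : B →+* B) := by
        refine sup_le (Ideal.mul_mono_right ?_) ((Ideal.span_singleton_le_iff_mem _).2 h5)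
        exact (Ideal.prod_le_inf).trans (Finset.inf_le (mem_univ i))
  · -- a field
    push Not at hfield
    obtain ⟨i, hi⟩ := hfield
    have hbot : (⊥ : Ideal B).IsMaximal := by rw [← hi]; exact hmax i
    have hQ : Q = ⊥ := (hbot.eq_of_le hQmax.ne_top bot_le).symm
    have hc0 : c = ⊥ := le_bot_iff.1 (by rw [← hQ]; exact hcQ)
    obtain ⟨x, hx, hx0⟩ := Submodule.exists_mem_ne_zero_of_ne_bot hI
    have h1 : ∏ i, g i x ∈ Ideal.span {w | ∃ x ∈ I, w = ∏ i, g i x} :=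
      Ideal.subset_span ⟨x, hx, rfl⟩
    rw [hc, hc0, Ideal.mul_bot, Ideal.mem_bot, prod_eq_zero_iff] at h1
    obtain ⟨j, -, hj⟩ := h1
    exact hx0 ((map_eq_zero_iff (g j) (g j).injective).1 hj)

/-- If all the norms come from `R` up to units, then the product of the conjugates of `I` is extended
from `R`. -/
theorem exists_map_eq {ι : Type*} [Fintype ι] (φ : R →+* B) (g : ι → B ≃+* B)
    (hN : ∀ z, ∃ r w, IsUnit w ∧ φ r = w * ∏ i, g i z) {I : Ideal B} (hI : I ≠ ⊥) :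
    ∃ J : Ideal R, J.map φ = ∏ i, I.map (g i : B →+* B) := by
  refine ⟨Ideal.span {r | ∃ x ∈ I, ∃ w, IsUnit w ∧ φ r = w * ∏ i, g i x}, ?_⟩
  rw [Ideal.map_span, ← span_norms g hI]
  apply le_antisymm
  · rw [Ideal.span_le]
    rintro _ ⟨r, ⟨x, hx, w, -, hr⟩, rfl⟩
    rw [SetLike.mem_coe, hr]
    exact Ideal.mul_mem_left _ _ (Ideal.subset_span ⟨x, hx, rfl⟩)
  · rw [Ideal.span_le]
    rintro _ ⟨x, hx, rfl⟩
    obtain ⟨r, w, ⟨u, rfl⟩, hr⟩ := hN x
    have : ∏ i, g i x = ((u⁻¹ : Bˣ) : B) * φ r := by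
      rw [hr, ← mul_assoc, Units.inv_mul, one_mul]
    rw [SetLike.mem_coe, this]
    exact Ideal.mul_mem_left _ _ (Ideal.subset_span ⟨r, ⟨x, hx, u, u.isUnit, hr⟩, rfl⟩)

theorem map_map' (g h : B ≃+* B) (I : Ideal B) :
    (I.map (h : B →+* B)).map (g : B →+* B) = I.map ((h.trans g : B ≃+* B) : B →+* B) := by
  rw [Ideal.map_map]; rfl

theorem princ_map {e : ℕ} (g : B ≃+* B) {I : Ideal B} (h : ∃ a, I ^ e = Ideal.span {a}) :
    ∃ a, (I.map (g : B →+* B)) ^ e = Ideal.span {a} := by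
  obtain ⟨a, ha⟩ := h
  refine ⟨g a, ?_⟩
  rw [← Ideal.map_pow, ha, Ideal.map_span, Set.image_singleton]
  rfl

/-- The exponent of the class group with an action of the symmetric group of degree three. -/
theorem exponent3 {σ ρ : B ≃+* B} (hρ : ∀ z, ρ (ρ (ρ z)) = z)
    (hσρ : ∀ z, σ (ρ z) = ρ (ρ (σ z))) (e f : ℕ)
    (hE : ∀ I : Ideal B, I ≠ ⊥ → ∃ a, (I * I.map (σ : B →+* B)) ^ e = Ideal.span {a})
    (hC : ∀ I : Ideal B, I ≠ ⊥ → ∃ a, (I * I.map (ρ : B →+* B) *
      (I.map (ρ : B →+* B)).map (ρ : B →+* B)) ^ f = Ideal.span {a})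
    {I : Ideal B} (hI : I ≠ ⊥) : ∃ a, I ^ (3 * (e * f)) = Ideal.span {a} := by
  have hs : (I.map (σ : B →+* B)) ≠ ⊥ := map_ne_bot σ hI
  -- the three involutions
  have e1 : ((I.map (ρ : B →+* B)).map (ρ : B →+* B) * ((I.map (ρ : B →+* B)).map (ρ : B →+* B)).map
      (σ : B →+* B)).map (ρ : B →+* B) =
      I * ((I.map (σ : B →+* B)).map (ρ : B →+* B)).map (ρ : B →+* B) := by
    rw [Ideal.map_mul]
    congr 1
    · rw [Ideal.map_map, Ideal.map_map]
      have : ((ρ : B →+* B).comp (ρ : B →+* B)).comp (ρ : B →+* B) = RingHom.id B := by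
        ext z; exact hρ z
      rw [this, Ideal.map_id]
    · simp only [Ideal.map_map]
      congr 1
      ext z
      show ρ (σ (ρ (ρ z))) = ρ (ρ (σ z))
      rw [hσρ, hσρ, hρ]
  have e2 : ((I.map (ρ : B →+* B)) * (I.map (ρ : B →+* B)).map (σ : B →+* B)).map
      ((ρ.trans ρ : B ≃+* B) : B →+* B) = I * (I.map (σ : B →+* B)).map (ρ : B →+* B) := by
    rw [Ideal.map_mul]
    congr 1
    · rw [Ideal.map_map]
      have : ((ρ.trans ρ : B ≃+* B) : B →+* B).comp (ρ : B →+* B) = RingHom.id B := by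
        ext z; exact hρ z
      rw [this, Ideal.map_id]
    · simp only [Ideal.map_map]
      congr 1
      ext z
      show ρ (ρ (σ (ρ z))) = ρ (σ z)
      rw [hσρ, hρ]
  have p0 := hE I hI
  have p1 := princ_map ρ (hE _ (map_ne_bot ρ (map_ne_bot ρ hI)))
  have p2 := princ_map (ρ.trans ρ) (hE _ (map_ne_bot ρ hI))
  rw [e1] at p1
  rw [e2] at p2
  obtain ⟨a0, h0⟩ := p0
  obtain ⟨a1, h1⟩ := p1
  obtain ⟨a2, h2⟩ := p2
  obtain ⟨b, hb⟩ := hC _ hs
  have hb0 : b ≠ 0 := by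
    rintro rfl
    rw [Ideal.span_singleton_eq_bot.2 rfl] at hb
    refine pow_ne_zero f (mul_ne_zero (mul_ne_zero hs ?_) ?_) hb
    · exact map_ne_bot ρ hs
    · exact map_ne_bot ρ (map_ne_bot ρ hs)
  have key : I ^ (3 * (e * f)) * Ideal.span {b ^ e} = Ideal.span {(a0 * a1 * a2) ^ f} := by
    rw [← Ideal.span_singleton_pow, ← Ideal.span_singleton_pow, ← hb,
      ← Ideal.span_singleton_mul_span_singleton, ← Ideal.span_singleton_mul_span_singleton,
      ← h0, ← h1, ← h2]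
    ring
  exact G2.principal_of_mul (pow_ne_zero _ hb0) key

end

end Pool.Agent.K7.H65.G4
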