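import Pool.Agent.K7.H65.G3.Count

set_option autoImplicit false
set_option linter.unusedSectionVars false

/-!
# The number of points of `y² = 2 x⁶ - 30 x⁴ + 150 x² + 6` over finite fields
-/

namespace Pool.Agent.K7.H65.G4

open Finset

section sums

variable {E : Type} [Field E] [Fintype E] [DecidableEq E]

theorem rc2 (h2 : (2 : E) ≠ 0) : ringChar E ≠ 2 := by
  intro h
  apply h2
  have := ringChar.Nat.cast_ringChar (R := E)
  rw [h] at this
  exact_mod_cast this

theorem card_sq (h2 : (2 : E) ≠ 0) (a : E) :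
    ((univ.filter fun x : E => x ^ 2 = a).card : ℤ) = quadraticChar E a + 1 := by
  have h := quadraticChar_card_sqrts (rc2 h2) a
  rw [← h]
  congr 2
  ext x
  simp

theorem sum_sq (h2 : (2 : E) ≠ 0) (f : E → ℤ) :
    ∑ x : E, f (x ^ 2) = ∑ t : E, (quadraticChar E t + 1) * f t := by
  have e1 : ∀ x : E, f (x ^ 2) = ∑ t : E, if x ^ 2 = t then f t else 0 := by
    intro x
    rw [sum_ite_eq univ (x ^ 2), if_pos (mem_univ _)]
  simp_rw [e1]
  rw [sum_comm]
  refine sum_congr rfl fun t _ => ?_
  rw [← card_sq h2 t, ← sum_filter, sum_const, nsmul_eq_mul]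

/-- `∑ χ(a x² + b) = - χ(a)` -/
theorem sum_quad (h2 : (2 : E) ≠ 0) (a b : E) (ha : a ≠ 0) (hb : b ≠ 0) :
    ∑ x : E, quadraticChar E (a * x ^ 2 + b) = - quadraticChar E a := by
  have hsum : ∀ c d : E, c ≠ 0 → ∑ t : E, quadraticChar E (c * t + d) = 0 := by
    intro c d hc
    have h := quadraticChar_sum_zero (rc2 h2)
    rw [← h]
    refine Fintype.sum_equiv ((Equiv.mulLeft₀ c hc).trans (Equiv.addRight d)) _ _ fun t => rfl
  rw [sum_sq h2 fun t => quadraticChar E (a * t + b)]
  simp_rw [add_mul, one_mul]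
  rw [sum_add_distrib, hsum a b ha, add_zero]
  have h1 : ∑ t : E, quadraticChar E t * quadraticChar E (a * t + b) =
      ∑ t ∈ univ.erase (0 : E), quadraticChar E (b * t⁻¹ + a) := by
    rw [← Finset.sum_erase_add _ _ (mem_univ (0 : E))]
    have : quadraticChar E 0 * quadraticChar E (a * 0 + b) = 0 := by simp
    rw [this, add_zero]
    refine sum_congr rfl fun t ht => ?_
    have ht0 : t ≠ 0 := (mem_erase.1 ht).1
    have h3 : quadraticChar E (t ^ 2) = 1 := quadraticChar_sq_one' ht0
    calc quadraticChar E t * quadraticChar E (a * t + b) = quadraticChar E (t * (a * t + b)) :=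
          (map_mul _ _ _).symm
      _ = quadraticChar E (t ^ 2 * (b * t⁻¹ + a)) := by
          congr 1; field_simp; ring
      _ = quadraticChar E (b * t⁻¹ + a) := by rw [map_mul, h3, one_mul]
  have h4 : ∑ t ∈ univ.erase (0 : E), quadraticChar E (b * t⁻¹ + a) =
      ∑ t ∈ univ.erase (0 : E), quadraticChar E (b * t + a) := by
    refine sum_nbij' (fun t => t⁻¹) (fun t => t⁻¹) ?_ ?_ ?_ ?_ ?_
    · intro t ht; simpa using ht
    · intro t ht; simpa using ht
    · intro t _; simp
    · intro t _; simp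
    · intro t _; rfl
  have h5 := hsum b a hb
  rw [← Finset.sum_erase_add _ _ (mem_univ (0 : E)), mul_zero, zero_add] at h5
  rw [h1, h4]
  linear_combination h5

/-- the cubic over the point `v` of the line -/
def hv (v u : E) : E := 2 * u ^ 3 - 30 * u ^ 2 + 150 * u + 6 - v ^ 2 * (1 - u) ^ 2

/-- the fibres over the point `v` of the line `X / S₃` -/
theorem fibre (h2 : (2 : E) ≠ 0) (h3 : (3 : E) ≠ 0) (v : E) :
    (univ.filter fun x : E => hv v (x ^ 2) = 0).card + 2 =
      (univ.filter fun w : E => w ^ 2 = 2 * (v ^ 2 - 6)).card +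
        2 * (univ.filter fun u : E => hv v u = 0).card := by
  have h6 : (6 : E) ≠ 0 := by
    have : (6 : E) = 2 * 3 := by norm_num
    rw [this]; exact mul_ne_zero h2 h3
  have h9 : (9 : E) ≠ 0 := by
    have : (9 : E) = 3 * 3 := by norm_num
    rw [this]; exact mul_ne_zero h3 h3
  have h64 : (64 : E) ≠ 0 := by
    have : (64 : E) = 2 ^ 6 := by norm_num
    rw [this]; exact pow_ne_zero _ h2
  have h18 : (18 : E) ≠ 0 := by
    have : (18 : E) = 2 * 9 := by norm_num
    rw [this]; exact mul_ne_zero h2 h9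
  obtain ⟨δ, hδ⟩ : ∃ δ : E, v ^ 2 = 18 * δ + 6 := ⟨(v ^ 2 - 6) / 18, by field_simp; ring⟩
  have hh : ∀ u : E, hv v u = 0 ↔ u * (u - 9) ^ 2 = 9 * δ * (1 - u) ^ 2 := by
    intro u
    unfold hv
    rw [hδ]
    constructor
    · intro h
      have : 2 * (u * (u - 9) ^ 2 - 9 * δ * (1 - u) ^ 2) = 0 := by linear_combination h
      exact sub_eq_zero.1 ((mul_eq_zero.1 this).resolve_left h2)
    · intro h
      linear_combination 2 * h
  have hK : ∀ w : E, w ^ 2 = 2 * (v ^ 2 - 6) ↔ w ^ 2 = 36 * δ := by
    intro w; rw [hδ]; constructor <;> intro h <;> linear_combination h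
  simp_rw [hK, hh]
  by_cases hδ0 : δ = 0
  · -- `v² = 6`
    subst hδ0
    have s1 : (univ.filter fun x : E => x ^ 2 * (x ^ 2 - 9) ^ 2 = 9 * 0 * (1 - x ^ 2) ^ 2) =
        {0, 3, -3} := by
      ext x
      simp only [mem_filter, mem_univ, true_and, mem_insert, mem_singleton]
      constructor
      · intro h
        have h1 : (x * ((x - 3) * (x + 3))) ^ 2 = 0 := by linear_combination h
        have h4 := pow_eq_zero_iff (two_ne_zero) |>.1 h1
        rcases mul_eq_zero.1 h4 with h5 | h5
        · exact Or.inl h5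
        · rcases mul_eq_zero.1 h5 with h7 | h7
          · exact Or.inr (Or.inl (sub_eq_zero.1 h7))
          · exact Or.inr (Or.inr (by linear_combination h7))
      · rintro (rfl | rfl | rfl) <;> ring
    have s2 : (univ.filter fun u : E => u * (u - 9) ^ 2 = 9 * 0 * (1 - u) ^ 2) = {0, 9} := by
      ext u
      simp only [mem_filter, mem_univ, true_and, mem_insert, mem_singleton]
      constructor
      · intro h
        have h1 : u * (u - 9) ^ 2 = 0 := by linear_combination h
        rcases mul_eq_zero.1 h1 with h5 | h5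
        · exact Or.inl h5
        · exact Or.inr (sub_eq_zero.1 (pow_eq_zero_iff (two_ne_zero) |>.1 h5))
      · rintro (rfl | rfl) <;> ring
    have s3 : (univ.filter fun w : E => w ^ 2 = 36 * 0) = {0} := by
      ext w
      simp only [mem_filter, mem_univ, true_and, mem_singleton, mul_zero]
      exact pow_eq_zero_iff (two_ne_zero)
    have n1 : (3 : E) ≠ -3 := by
      intro h
      apply h6
      linear_combination h
    rw [s1, s2, s3, card_singleton, card_pair h9.symm, card_insert_of_notMem, card_pair n1]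
    simp only [mem_insert, mem_singleton, not_or]
    exact ⟨h3.symm, fun h => h3 (by linear_combination h)⟩
  by_cases hsq : IsSquare δ
  · obtain ⟨W, rfl⟩ := hsq
    have hW : W ≠ 0 := fun h => hδ0 (by rw [h]; ring)
    have hroot : ∀ u : E, u * (u - 9) ^ 2 = 9 * (W * W) * (1 - u) ^ 2 → u - 9 ≠ 0 ∧
        (3 * W * (1 - u) / (u - 9)) ^ 2 = u ∧ u ≠ 0 := by
      intro u hu
      have n9 : u - 9 ≠ 0 := by
        intro h
        have h1 : u = 9 := sub_eq_zero.1 h
        rw [h1] at hu
        have : 9 * (W * W) * 64 = 0 := by linear_combination -hu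
        exact mul_ne_zero (mul_ne_zero h9 (mul_ne_zero hW hW)) h64 this
      refine ⟨n9, ?_, ?_⟩
      · field_simp
        linear_combination -hu
      · rintro rfl
        have : 9 * (W * W) = 0 := by linear_combination -hu
        exact mul_ne_zero h9 (mul_ne_zero hW hW) this
    have c2 : ∀ r : E, r ≠ 0 → (univ.filter fun x : E => x ^ 2 = r ^ 2).card = 2 := by
      intro r hr
      have : (univ.filter fun x : E => x ^ 2 = r ^ 2) = {r, -r} := by
        ext x
        simp only [mem_filter, mem_univ, true_and, mem_insert, mem_singleton]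
        exact sq_eq_sq_iff_eq_or_eq_neg
      rw [this, card_pair]
      intro h
      have : 2 * r = 0 := by linear_combination h
      exact mul_ne_zero h2 hr this
    have k1 : (univ.filter fun w : E => w ^ 2 = 36 * (W * W)).card = 2 := by
      have := c2 (6 * W) (mul_ne_zero h6 hW)
      have e : (6 * W) ^ 2 = 36 * (W * W) := by ring
      rw [e] at this
      exact this
    have k2 : (univ.filter fun x : E => x ^ 2 * (x ^ 2 - 9) ^ 2 = 9 * (W * W) * (1 - x ^ 2) ^ 2).card =
        2 * (univ.filter fun u : E => u * (u - 9) ^ 2 = 9 * (W * W) * (1 - u) ^ 2).card := by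
      rw [card_eq_sum_card_fiberwise (f := fun x : E => x ^ 2)
        (t := univ.filter fun u : E => u * (u - 9) ^ 2 = 9 * (W * W) * (1 - u) ^ 2)]
      · rw [sum_const_nat (m := 2), mul_comm]
        intro u hu
        rw [mem_filter] at hu
        obtain ⟨n9, hr, hu0⟩ := hroot u hu.2
        have hr0 : 3 * W * (1 - u) / (u - 9) ≠ 0 := by
          intro h
          rw [h] at hr
          exact hu0 (by rw [← hr]; ring)
        refine Eq.trans (congrArg card ?_) (c2 _ hr0)
        ext x
        simp only [mem_filter, mem_univ, true_and]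
        rw [hr]
        constructor
        · exact fun h => h.2
        · intro h
          exact ⟨by rw [h]; exact hu.2, h⟩
      · intro x hx
        simp only [coe_filter, mem_univ, true_and, Set.mem_ofPred_eq] at hx ⊢
        exact hx
    omega
  · -- not a square
    have k0 : (univ.filter fun w : E => w ^ 2 = 36 * δ).card = 0 := by
      rw [card_eq_zero, filter_eq_empty_iff]
      intro w _ h
      apply hsq
      refine ⟨w / 6, ?_⟩
      field_simp
      linear_combination -h
    have k1 : (univ.filter fun x : E => x ^ 2 * (x ^ 2 - 9) ^ 2 = 9 * δ * (1 - x ^ 2) ^ 2).card = 0 := by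
      rw [card_eq_zero, filter_eq_empty_iff]
      intro x _ h
      have n1 : 1 - x ^ 2 ≠ 0 := by
        intro h0
        have h1 : x ^ 2 = 1 := by linear_combination -h0
        rw [h1] at h
        apply h64
        linear_combination h
      apply hsq
      refine ⟨x * (x ^ 2 - 9) / (3 * (1 - x ^ 2)), ?_⟩
      field_simp
      linear_combination -h
    have hd : ∀ a : E, 1 - δ * a ^ 2 ≠ 0 := by
      intro a h
      apply hsq
      have ha : a ≠ 0 := by
        rintro rfl
        have : (1 : E) = 0 := by linear_combination h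
        exact one_ne_zero this
      refine ⟨1 / a, ?_⟩
      field_simp
      linear_combination -h
    let G : E → E := fun a => a * (9 - δ * a ^ 2) / (3 * (1 - δ * a ^ 2))
    have hG : ∀ a b : E, G a = b ↔ a * (9 - δ * a ^ 2) = b * (3 * (1 - δ * a ^ 2)) := by
      intro a b
      exact div_eq_iff (mul_ne_zero h3 (hd a))
    have hinj : Function.Injective G := by
      intro a b hab
      by_contra hne
      have hb := (hG b (G b)).1 rfl
      have ha := (hG a (G b)).1 hab
      have da := hd a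
      generalize G b = g at ha hb
      -- difference of the two cubic equations
      have e1 : (a - b) * (δ * (a ^ 2 + a * b + b ^ 2) - 3 * g * δ * (a + b) - 9) = 0 := by
        linear_combination hb - ha
      have e2 := (mul_eq_zero.1 e1).resolve_left (sub_ne_zero.2 hne)
      have e3 : δ * (1 - δ * a ^ 2) * b ^ 2 - 8 * δ * a * b + (δ * a ^ 2 - 9) = 0 := by
        linear_combination (1 - δ * a ^ 2) * e2 - δ * (a + b) * ha
      have e4 : (δ * (1 - δ * a ^ 2) * b - 4 * δ * a) ^ 2 = δ * (δ * a ^ 2 + 3) ^ 2 := by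
        linear_combination δ * (1 - δ * a ^ 2) * e3
      by_cases h0 : δ * a ^ 2 + 3 = 0
      · rw [h0] at e4
        have e5 : δ * (1 - δ * a ^ 2) * b - 4 * δ * a = 0 :=
          pow_eq_zero_iff (two_ne_zero) |>.1 (by rw [e4]; ring)
        have e6 : (4 * δ) * (b - a) = 0 := by
          linear_combination e5 + δ * b * h0
        have h4 : (4 : E) ≠ 0 := by
          have : (4 : E) = 2 * 2 := by norm_num
          rw [this]; exact mul_ne_zero h2 h2
        exact hne (sub_eq_zero.1 ((mul_eq_zero.1 e6).resolve_left (mul_ne_zero h4 hδ0))).symm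
      · apply hsq
        refine ⟨(δ * (1 - δ * a ^ 2) * b - 4 * δ * a) / (δ * a ^ 2 + 3), ?_⟩
        rw [div_mul_div_comm, eq_div_iff (mul_ne_zero h0 h0)]
        linear_combination -e4
    obtain ⟨a, ha⟩ := (Finite.injective_iff_surjective.1 hinj) 1
    have ha' := (hG a 1).1 ha
    have k2 : (univ.filter fun u : E => u * (u - 9) ^ 2 = 9 * δ * (1 - u) ^ 2) = {δ * a ^ 2} := by
      ext u
      simp only [mem_filter, mem_univ, true_and, mem_singleton]
      constructor
      · intro hu
        have n9 : 9 - u ≠ 0 := by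
          intro h
          have h1 : u = 9 := by linear_combination -h
          rw [h1] at hu
          have : 9 * δ * 64 = 0 := by linear_combination -hu
          exact mul_ne_zero (mul_ne_zero h9 hδ0) h64 this
        have n1 : 1 - u ≠ 0 := by
          intro h
          have h1 : u = 1 := by linear_combination -h
          rw [h1] at hu
          apply h64
          linear_combination hu
        have hb2 : δ * (3 * (1 - u) / (9 - u)) ^ 2 = u := by
          field_simp
          linear_combination -hu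
        have hb : G (3 * (1 - u) / (9 - u)) = 1 := by
          rw [hG, hb2]
          field_simp
        have := hinj (hb.trans ha.symm)
        rw [← this, hb2]
      · rintro rfl
        have e : δ * (a * (9 - δ * a ^ 2)) ^ 2 = δ * (1 * (3 * (1 - δ * a ^ 2))) ^ 2 := by rw [ha']
        linear_combination e
    rw [k0, k1, k2, card_singleton]

theorem hv_one (v : E) : hv v 1 = 128 := by unfold hv; ring

/-- the number of `v` over `u` -/
theorem card_v (h2 : (2 : E) ≠ 0) (u : E) :
    ((univ.filter fun v : E => hv v u = 0).card : ℤ) =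
      if u = 1 then 0 else quadraticChar E (2 * u ^ 3 - 30 * u ^ 2 + 150 * u + 6) + 1 := by
  have h128 : (128 : E) ≠ 0 := by
    have : (128 : E) = 2 ^ 7 := by norm_num
    rw [this]; exact pow_ne_zero _ h2
  by_cases hu : u = 1
  · rw [if_pos hu, hu]
    have : (univ.filter fun v : E => hv v 1 = 0) = ∅ := by
      rw [filter_eq_empty_iff]
      intro v _
      rw [hv_one]; exact h128
    rw [this]; rfl
  · rw [if_neg hu, ← card_sq h2]
    have h1 : 1 - u ≠ 0 := sub_ne_zero.2 (Ne.symm hu)
    congr 1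
    refine card_nbij' (fun v => v * (1 - u)) (fun y => y / (1 - u)) ?_ ?_ ?_ ?_
    · intro v hvv
      simp only [coe_filter, mem_univ, true_and, Set.mem_ofPred_eq] at hvv ⊢
      unfold hv at hvv
      linear_combination -hvv
    · intro y hy
      simp only [coe_filter, mem_univ, true_and, Set.mem_ofPred_eq] at hy ⊢
      unfold hv
      rw [← hy]
      field_simp
      ring
    · intro v _
      simp only
      field_simp
    · intro y _
      simp only
      field_simp

theorem chi_128 (h2 : (2 : E) ≠ 0) : quadraticChar E (2 * 1 ^ 3 - 30 * 1 ^ 2 + 150 * 1 + 6) =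
    quadraticChar E 2 := by
  have h8 : (8 : E) ≠ 0 := by
    have : (8 : E) = 2 ^ 3 := by norm_num
    rw [this]; exact pow_ne_zero _ h2
  have e : (2 * 1 ^ 3 - 30 * 1 ^ 2 + 150 * 1 + 6 : E) = 8 ^ 2 * 2 := by norm_num
  rw [e, map_mul, quadraticChar_sq_one' h8, one_mul]

/-- the two character sums -/
theorem sum_sext (h2 : (2 : E) ≠ 0) (h3 : (3 : E) ≠ 0) :
    ∑ x : E, quadraticChar E (2 * x ^ 6 - 30 * x ^ 4 + 150 * x ^ 2 + 6) =
      2 * ∑ u : E, quadraticChar E (2 * u ^ 3 - 30 * u ^ 2 + 150 * u + 6) - quadraticChar E 2 := by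
  have h6 : (6 : E) ≠ 0 := by
    have : (6 : E) = 2 * 3 := by norm_num
    rw [this]; exact mul_ne_zero h2 h3
  -- sum of the cardinalities over `v`
  have swap : ∀ (P : E → E → Prop) [∀ a b, Decidable (P a b)],
      ∑ v : E, ((univ.filter fun x : E => P v x).card : ℤ) =
        ∑ x : E, ((univ.filter fun v : E => P v x).card : ℤ) := by
    intro P _
    simp_rw [card_filter]
    push_cast
    exact sum_comm
  have f1 : ∑ v : E, ((univ.filter fun u : E => hv v u = 0).card : ℤ) =
      ∑ u : E, (quadraticChar E (2 * u ^ 3 - 30 * u ^ 2 + 150 * u + 6) + 1) -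
        (quadraticChar E 2 + 1) := by
    rw [swap fun v u => hv v u = 0]
    simp_rw [card_v h2]
    have g1 := Finset.sum_erase_add univ
      (fun u : E => quadraticChar E (2 * u ^ 3 - 30 * u ^ 2 + 150 * u + 6) + 1) (mem_univ (1 : E))
    rw [chi_128 h2] at g1
    rw [← g1, add_sub_cancel_right, ← Finset.sum_erase_add _ _ (mem_univ (1 : E)), if_pos rfl, add_zero]
    refine sum_congr rfl fun u hu => ?_
    rw [if_neg (mem_erase.1 hu).1]
  have f2 : ∑ v : E, ((univ.filter fun x : E => hv v (x ^ 2) = 0).card : ℤ) =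
      ∑ x : E, (quadraticChar E (2 * x ^ 6 - 30 * x ^ 4 + 150 * x ^ 2 + 6) + 1) -
        2 * (quadraticChar E 2 + 1) := by
    rw [swap fun v x => hv v (x ^ 2) = 0]
    simp_rw [card_v h2]
    have e1 : ∀ x : E, (if x ^ 2 = 1 then (0 : ℤ) else
        quadraticChar E (2 * (x ^ 2) ^ 3 - 30 * (x ^ 2) ^ 2 + 150 * x ^ 2 + 6) + 1) =
        (quadraticChar E (2 * x ^ 6 - 30 * x ^ 4 + 150 * x ^ 2 + 6) + 1) -
          if x ^ 2 = 1 then quadraticChar E 2 + 1 else 0 := by
      intro x
      by_cases hx : x ^ 2 = 1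
      · rw [if_pos hx, if_pos hx]
        have e : (2 * x ^ 6 - 30 * x ^ 4 + 150 * x ^ 2 + 6 : E) =
            2 * 1 ^ 3 - 30 * 1 ^ 2 + 150 * 1 + 6 := by
          linear_combination (2 * (x ^ 4 + x ^ 2 + 1) - 30 * (x ^ 2 + 1) + 150) * hx
        rw [e, chi_128 h2]; ring
      · rw [if_neg hx, if_neg hx, sub_zero]
        congr 2
        ring
    simp_rw [e1]
    rw [sum_sub_distrib]
    congr 1
    rw [← sum_filter, sum_const, nsmul_eq_mul]
    congr 1
    have := card_sq h2 (1 : E)
    rw [this, map_one]; norm_num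
  have f3 : ∑ v : E, ((univ.filter fun w : E => w ^ 2 = 2 * (v ^ 2 - 6)).card : ℤ) =
      Fintype.card E - quadraticChar E 2 := by
    simp_rw [card_sq h2]
    rw [sum_add_distrib]
    have e1 : ∀ v : E, (2 * (v ^ 2 - 6) : E) = 2 * v ^ 2 + -12 := fun v => by ring
    have h12 : (-12 : E) ≠ 0 := by
      have : (-12 : E) = -(2 * 6) := by norm_num
      rw [this]; exact neg_ne_zero.2 (mul_ne_zero h2 h6)
    simp_rw [e1]
    rw [sum_quad h2 2 (-12) h2 h12, sum_const, card_univ, nsmul_eq_mul, mul_one]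
    ring
  have f4 : ∀ v : E, ((univ.filter fun x : E => hv v (x ^ 2) = 0).card : ℤ) + 2 =
      ((univ.filter fun w : E => w ^ 2 = 2 * (v ^ 2 - 6)).card : ℤ) +
        2 * ((univ.filter fun u : E => hv v u = 0).card : ℤ) := by
    intro v
    exact_mod_cast fibre h2 h3 v
  have f5 := sum_congr (rfl : (univ : Finset E) = univ) fun v _ => f4 v
  rw [sum_add_distrib, sum_add_distrib, ← mul_sum, f1, f2, f3, sum_add_distrib, sum_add_distrib] at f5
  simp only [sum_const, card_univ, nsmul_eq_mul, mul_one] at f5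
  linear_combination f5

/-- the elliptic quotient -/
theorem sum_cub (h2 : (2 : E) ≠ 0) :
    ∑ u : E, quadraticChar E (2 * u ^ 3 - 30 * u ^ 2 + 150 * u + 6) =
      ∑ x : E, quadraticChar E (x ^ 3 + 0 * x + 16) := by
  refine (Fintype.sum_equiv ((Equiv.mulLeft₀ (2 : E) h2).trans (Equiv.addRight (5 : E))) _ _
    fun x => ?_).symm
  show quadraticChar E (x ^ 3 + 0 * x + 16) =
    quadraticChar E (2 * (2 * x + 5) ^ 3 - 30 * (2 * x + 5) ^ 2 + 150 * (2 * x + 5) + 6)
  have h4 : (4 : E) ≠ 0 := by
    have : (4 : E) = 2 * 2 := by norm_num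
    rw [this]; exact mul_ne_zero h2 h2
  have e : (2 * (2 * x + 5) ^ 3 - 30 * (2 * x + 5) ^ 2 + 150 * (2 * x + 5) + 6 : E) =
      4 ^ 2 * (x ^ 3 + 0 * x + 16) := by ring
  rw [e, map_mul, quadraticChar_sq_one' h4, one_mul]

end sums

section count

open Pool.Agent.H341R2.Sharp Pool.Agent.H126T W165.CE Pool.Agent.H82R3.EK

variable {k : Type} [Field k] [Finite k]

/-- the number of points of the smooth projective curve `y² = 2 x⁶ - 30 x⁴ + 150 x² + 6` over the finite
field `E` -/
noncomputable def pts (E : Type) [Field E] : ℕ :=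
  Nat.card {P : E × E // P.2 ^ 2 = 2 * P.1 ^ 6 - 30 * P.1 ^ 4 + 150 * P.1 ^ 2 + 6} +
    Nat.card {z : E // z ^ 2 = 2}

/-- the number of points over the extension of degree `n` -/
theorem pts_eq (h2 : (2 : k) ≠ 0) (h3 : (3 : k) ≠ 0) (α β : ℂ)
    (hα : α + β = (Nat.card k : ℂ) - Nat.card {P : k × k // P.2 ^ 2 = P.1 ^ 3 + 0 * P.1 + 16})
    (hβ : α * β = Nat.card k) (n : ℕ) (hn : 1 ≤ n) (E : Type) [Field E] [Finite E] (φ : k →+* E)
    (hE : Nat.card E = Nat.card k ^ n) :
    (pts E : ℂ) = (Nat.card E : ℂ) + 1 - (α ^ n + β ^ n + α ^ n + β ^ n) := by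
  classical
  let _ := Fintype.ofFinite k
  let _ := Fintype.ofFinite E
  let _ : Algebra k E := φ.toAlgebra
  have hF : ringChar k ≠ 2 := rc2 h2
  have hE2 : ringChar E ≠ 2 := by rwa [← Algebra.ringChar_eq k E]
  have h2E : (2 : E) ≠ 0 := by
    rw [← map_ofNat φ 2]; exact (_root_.map_ne_zero _).2 h2
  have h3E : (3 : E) ≠ 0 := by
    rw [← map_ofNat φ 3]; exact (_root_.map_ne_zero _).2 h3
  have hdisc : 4 * (0 : k) ^ 3 + 27 * 16 ^ 2 ≠ 0 := by
    have : 4 * (0 : k) ^ 3 + 27 * 16 ^ 2 = 2 ^ 8 * 3 ^ 3 := by norm_num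
    rw [this]
    exact mul_ne_zero (pow_ne_zero _ h2) (pow_ne_zero _ h3)
  have t1 := G3.T_wei h2 (0 : k) 16 hdisc α β hα hβ E n hn hE
  rw [map_zero, map_ofNat] at t1
  have h := card_points hE2 (fun x : E => 2 * x ^ 6 - 30 * x ^ 4 + 150 * x ^ 2 + 6)
  rw [sum_sext h2E h3E, sum_cub h2E] at h
  have hz : ((Nat.card {z : E // z ^ 2 = 2} : ℕ) : ℤ) = quadraticChar E 2 + 1 := by
    rw [← card_sq h2E, Nat.card_eq_fintype_card, Fintype.card_subtype]
  unfold pts
  have h' : ((Nat.card {P : E × E // P.2 ^ 2 = 2 * P.1 ^ 6 - 30 * P.1 ^ 4 + 150 * P.1 ^ 2 + 6} +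
      Nat.card {z : E // z ^ 2 = 2} : ℕ) : ℤ) = Fintype.card E + 1 +
        2 * ∑ x : E, quadraticChar E (x ^ 3 + 0 * x + 16) := by
    rw [Nat.cast_add, hz, h]
    ring
  have h'' : ((Nat.card {P : E × E // P.2 ^ 2 = 2 * P.1 ^ 6 - 30 * P.1 ^ 4 + 150 * P.1 ^ 2 + 6} +
      Nat.card {z : E // z ^ 2 = 2} : ℕ) : ℂ) =
      (((Nat.card {P : E × E // P.2 ^ 2 = 2 * P.1 ^ 6 - 30 * P.1 ^ 4 + 150 * P.1 ^ 2 + 6} +
      Nat.card {z : E // z ^ 2 = 2} : ℕ) : ℤ) : ℂ) := (Int.cast_natCast _).symm
  rw [h'', h', Int.cast_add, Int.cast_mul, t1, Nat.card_eq_fintype_card]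
  push_cast
  ring

end count

end Pool.Agent.K7.H65.G4
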