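import Pool.Agent.TH943.HJ.Ded

/-!
# The coordinate ring of `y² = F(x)` for a polynomial `F` of even degree

If `F` is not a square up to squares (for example if its leading coefficient is not a square) and is
squarefree, then the coordinate ring is a Dedekind domain (the proof for odd degree is in
`Pool/Agent/TH943/HJ/Ded.lean`).
-/

set_option autoImplicit false
set_option maxHeartbeats 1000000

open Polynomial

namespace Pool.Agent.K7.H65.G4

open Pool.Agent.TH943.HJ

section

variable {K : Type} [Field K] {F : K[X]}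

/-- the norm form `p² - F q²` has no zero -/
def NS (F : K[X]) : Prop := ∀ p q : K[X], p ^ 2 - F * q ^ 2 = 0 → p = 0 ∧ q = 0

theorem ns_of_lead (h : ¬ IsSquare F.leadingCoeff) : NS F := by
  intro p q hpq
  have h1 : p ^ 2 = F * q ^ 2 := by linear_combination hpq
  by_cases hq : q = 0
  · rw [hq] at h1
    refine ⟨?_, hq⟩
    have : p ^ 2 = 0 := by linear_combination h1
    exact pow_eq_zero_iff (two_ne_zero) |>.1 this
  · exfalso
    apply h
    have h2 := congrArg leadingCoeff h1
    rw [leadingCoeff_pow, leadingCoeff_mul, leadingCoeff_pow] at h2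
    have h3 : q.leadingCoeff ≠ 0 := leadingCoeff_ne_zero.2 hq
    refine ⟨p.leadingCoeff / q.leadingCoeff, ?_⟩
    field_simp
    exact h2.symm

theorem isDomain (hns : NS F) : IsDomain (CR F) := by
  have : Nontrivial (CR F) := pp_inj.nontrivial
  have : NoZeroDivisors (CR F) := by
    constructor
    intro a b hab
    obtain ⟨p, q, rfl⟩ := exists_el a
    obtain ⟨p', q', rfl⟩ := exists_el b
    have h1 : (pp ((p ^ 2 - F * q ^ 2) * (p' ^ 2 - F * q' ^ 2)) : CR F) = 0 := by
      rw [map_mul, ← el_mul_cj, ← el_mul_cj]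
      linear_combination cj F (el p q) * cj F (el p' q') * hab
    have h2 := (injective_iff_map_eq_zero _).1 pp_inj _ h1
    rcases mul_eq_zero.1 h2 with h | h
    · left
      obtain ⟨rfl, rfl⟩ := hns _ _ h
      rw [el_left, map_zero]
    · right
      obtain ⟨rfl, rfl⟩ := hns _ _ h
      rw [el_left, map_zero]
  exact NoZeroDivisors.to_isDomain _

theorem int_closed (h2 : (2 : K) ≠ 0) (hns : NS F) (hsq : Squarefree F)
    [IsDomain (CR F)] (L : Type) [Field L] [Algebra (CR F) L] [IsFractionRing (CR F) L]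
    [Algebra K[X] L] [IsScalarTower K[X] (CR F) L] (z : L) (hz : IsIntegral (CR F) z) :
    ∃ y, algebraMap (CR F) L y = z := by
  let κ : CR F →+* L := algebraMap (CR F) L
  have hκ : Function.Injective κ := IsFractionRing.injective (CR F) L
  let ι : K[X] →+* L := algebraMap K[X] L
  have hικ : ∀ p, ι p = κ (pp p) := fun p => IsScalarTower.algebraMap_apply K[X] (CR F) L p
  have hι : Function.Injective ι := by
    intro a b hab
    rw [hικ, hικ] at hab
    exact pp_inj (hκ hab)
  let σ : L →+* L := IsFractionRing.lift (A := CR F) (K := L) (g := κ.comp (cj F))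
    (hκ.comp cj_inj)
  have hσ : ∀ a, σ (κ a) = κ (cj F a) := fun a => IsFractionRing.lift_algebraMap _ a
  have hσι : ∀ p, σ (ι p) = ι p := fun p => by
    rw [hικ, hσ, cj_pp]
  -- integrality over the polynomials
  have hfin : Module.Finite K[X] (CR F) := (monicF F).finite_adjoinRoot
  have hz1 : IsIntegral K[X] z := isIntegral_trans z hz
  have hz2 : IsIntegral K[X] (σ z) := by
    have hs : ∀ p : K[X], σ (algebraMap K[X] L p) = algebraMap K[X] L p := hσι
    exact hz1.map ({ σ with commutes' := hs } : L →ₐ[K[X]] L)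
  have hpoly : ∀ {u d : K[X]}, d ≠ 0 → IsIntegral K[X] (ι u / ι d) → d ∣ u := by
    intro u d hd h
    let φ : FractionRing K[X] →ₐ[K[X]] L := IsFractionRing.liftAlgHom (g := Algebra.ofId K[X] L) hι
    have hφa : ∀ p : K[X], φ (algebraMap K[X] (FractionRing K[X]) p) = ι p :=
      fun p => φ.commutes p
    have h1 : φ (algebraMap K[X] (FractionRing K[X]) u / algebraMap K[X] (FractionRing K[X]) d) =
        ι u / ι d := by
      rw [map_div₀, hφa, hφa]
    rw [← h1, isIntegral_algHom_iff φ φ.toRingHom.injective, IsIntegrallyClosed.isIntegral_iff] at h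
    obtain ⟨y, hy⟩ := h
    have hd' : algebraMap K[X] (FractionRing K[X]) d ≠ 0 := by
      rw [Ne, IsFractionRing.to_map_eq_zero_iff]
      exact hd
    rw [eq_div_iff hd', ← map_mul] at hy
    refine ⟨y, ?_⟩
    rw [mul_comm]
    exact (IsFractionRing.injective K[X] (FractionRing K[X]) hy).symm
  obtain ⟨P, Q, D, hD, hzD⟩ : ∃ P Q D : K[X], D ≠ 0 ∧ z * ι D = κ (el P Q) := by
    obtain ⟨r, s, hs, rfl⟩ := IsFractionRing.div_surjective (A := CR F) z
    have hs0 : s ≠ 0 := nonZeroDivisors.ne_zero hs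
    obtain ⟨p, q, rfl⟩ := exists_el s
    obtain ⟨P, Q, hPQ⟩ := exists_el (r * cj F (el p q))
    refine ⟨P, Q, p ^ 2 - F * q ^ 2, ?_, ?_⟩
    · intro h
      obtain ⟨rfl, rfl⟩ := hns _ _ h
      exact hs0 (by rw [el_left, map_zero])
    · have h3 : ι (p ^ 2 - F * q ^ 2) = κ (el p q) * κ (cj F (el p q)) := by
        rw [← map_mul, el_mul_cj, hικ]
      have h4 : κ (el p q) ≠ 0 := by
        rw [Ne, map_eq_zero_iff κ hκ]
        exact hs0
      rw [h3, ← hPQ, map_mul]
      show κ r / κ (el p q) * (κ (el p q) * κ (cj F (el p q))) = _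
      field_simp
  have hD' : ι D ≠ 0 := by
    rw [Ne, map_eq_zero_iff _ hι]
    exact hD
  have hzbD : σ z * ι D = κ (el P (-Q)) := by
    have h1 := congrArg σ hzD
    rw [map_mul, hσ, cj_el, hσι] at h1
    exact h1
  have ht : z + σ z = ι (2 * P) / ι D := by
    rw [eq_div_iff hD', add_mul, hzD, hzbD, ← map_add]
    rw [hικ]
    congr 1
    unfold el
    rw [map_neg, map_mul, map_ofNat]
    ring
  have hn : z * σ z = ι (P ^ 2 - F * Q ^ 2) / ι (D ^ 2) := by
    rw [map_pow, eq_div_iff (pow_ne_zero 2 hD')]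
    have h1 : ι (P ^ 2 - F * Q ^ 2) = κ (el P Q) * κ (el P (-Q)) := by
      rw [← map_mul, ← cj_el, el_mul_cj, hικ]
    rw [h1, ← hzD, ← hzbD]
    ring
  have hDt : D ∣ 2 * P := hpoly hD (by rw [← ht]; exact hz1.add hz2)
  have hDn : D ^ 2 ∣ P ^ 2 - F * Q ^ 2 :=
    hpoly (pow_ne_zero 2 hD) (by rw [← hn]; exact hz1.mul hz2)
  have hu2 : IsUnit (2 : K[X]) := by
    have : (2 : K[X]) = C 2 := by rw [map_ofNat]
    rw [this]
    exact isUnit_C.2 (isUnit_iff_ne_zero.2 h2)
  have hDP : D ∣ P := (hu2.dvd_mul_left).1 hDt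
  have hDQ : D ∣ Q := by
    apply dvd_of_sq hsq hD
    have h5 : D ^ 2 ∣ P ^ 2 := pow_dvd_pow_of_dvd hDP 2
    have h6 := dvd_sub h5 hDn
    rwa [sub_sub_cancel] at h6
  obtain ⟨a, ha⟩ := hDP
  obtain ⟨b, hb⟩ := hDQ
  refine ⟨el a b, ?_⟩
  apply mul_right_cancel₀ hD'
  rw [hzD, ha, hb]
  show κ (el a b) * ι D = _
  rw [hικ, ← map_mul]
  congr 1
  unfold el
  rw [map_mul, map_mul]
  ring

theorem dedekind (h2 : (2 : K) ≠ 0) (hns : NS F) (hsq : Squarefree F) :
    IsDedekindDomain (CR F) := by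
  have hdom := isDomain hns
  have hfin : Module.Finite K[X] (CR F) := (monicF F).finite_adjoinRoot
  have hinj : FaithfulSMul K[X] (CR F) := (faithfulSMul_iff_algebraMap_injective _ _).2 pp_inj
  rw [isDedekindDomain_iff (CR F) (FractionRing (CR F))]
  refine ⟨inferInstance, IsNoetherianRing.of_finite K[X] (CR F),
    Ring.DimensionLEOne.of_isIntegral K[X] (CR F), fun {z} hz => int_closed h2 hns hsq _ z hz⟩

end

end Pool.Agent.K7.H65.G4
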