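import Pool.Agent.K7.H65.G4.Count
import Pool.Agent.Y696.Nm

set_option autoImplicit false
set_option linter.unusedSectionVars false

/-!
# The `L`-function of `y² = 2 x⁶ - 30 x⁴ + 150 x² + 6`
-/

namespace Pool.Agent.K7.H65.G4

open Finset NumberField IsDedekindDomain IsLocalRing
open Pool.Agent.Y696
open Pool.Agent.W189.NF (aV eV Ov card_res finite_res)
open Pool.Agent.H921R2.TatePole (nm two_le_nm)

theorem exists_rts (s t : ℂ) : ∃ z w : ℂ, z + w = s ∧ z * w = t := by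
  obtain ⟨r, hr⟩ := IsAlgClosed.exists_pow_nat_eq (s ^ 2 - 4 * t) (n := 2) (by norm_num)
  exact ⟨(s + r) / 2, (s - r) / 2, by ring, by linear_combination (-1 / 4 : ℂ) * hr⟩

/-- the two models of the elliptic curve -/
theorem card_aff {k : Type} [Field k] (h2 : (2 : k) ≠ 0) :
    Nat.card (Aff k) = Nat.card {P : k × k // P.2 ^ 2 = P.1 ^ 3 + 0 * P.1 + 16} := by
  have h4 : (4 : k) ≠ 0 := by
    have : (4 : k) = 2 * 2 := by norm_num
    rw [this]; exact mul_ne_zero h2 h2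
  have h8 : (8 : k) ≠ 0 := by
    have : (8 : k) = 2 * 4 := by norm_num
    rw [this]; exact mul_ne_zero h2 h4
  refine Nat.card_congr
    { toFun := fun p => ⟨(4 * p.1.1, 8 * p.1.2 + 4), ?_⟩
      invFun := fun p => ⟨(p.1.1 / 4, (p.1.2 - 4) / 8), ?_⟩
      left_inv := ?_
      right_inv := ?_ }
  · have := p.2
    show (8 * p.1.2 + 4) ^ 2 = (4 * p.1.1) ^ 3 + 0 * (4 * p.1.1) + 16
    linear_combination 64 * this
  · have := p.2
    have h64 : (64 : k) ≠ 0 := by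
      have : (64 : k) = 8 * 8 := by norm_num
      rw [this]; exact mul_ne_zero h8 h8
    show ((p.1.2 - 4) / 8) ^ 2 + (p.1.2 - 4) / 8 = (p.1.1 / 4) ^ 3
    have e1 : ((p.1.2 - 4) / 8) ^ 2 + (p.1.2 - 4) / 8 = (p.1.2 ^ 2 - 16) / 64 := by
      have h88 : (64 : k) = 8 * 8 := by norm_num
      rw [h88]
      field_simp
      ring
    have e2 : (p.1.1 / 4) ^ 3 = p.1.1 ^ 3 / 64 := by
      have h88 : (64 : k) = 4 ^ 3 := by norm_num
      rw [h88, div_pow]
    rw [e1, e2]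
    congr 1
    linear_combination this
  · rintro ⟨⟨x, y⟩, h⟩
    simp only [Subtype.mk.injEq, Prod.mk.injEq]
    constructor
    · field_simp
    · field_simp
      ring
  · rintro ⟨⟨x, y⟩, h⟩
    simp only [Subtype.mk.injEq, Prod.mk.injEq]
    constructor
    · field_simp
    · field_simp
      ring

section main

variable {k : Type} [Field k] [NumberField k]

/-- the local polynomial -/
noncomputable def Pv (v : HeightOneSpectrum (𝓞 k)) (s : ℂ) : ℂ :=
  1 - (aV (E0 k) v : ℂ) * (nm v : ℂ) ^ (-s) + (eV (E0 k) v : ℂ) * ((nm v : ℂ) ^ (-s)) ^ 2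

theorem Pv_ne (h : ∀ v : HeightOneSpectrum (𝓞 k), HBd (aV (E0 k) v) (eV (E0 k) v) (nm v))
    (v : HeightOneSpectrum (𝓞 k)) (s : ℂ) (hs : 1 ≤ s.re) : Pv v s ≠ 0 := by
  unfold Pv
  rcases h v with ⟨h1, h2⟩ | ⟨x, h1, h2, h3⟩
  · rw [h1, h2]; simp
  · rw [h1, h2]
    set w := (nm v : ℂ) ^ (-s) with hw
    have hq2 : (2 : ℝ) ≤ nm v := by exact_mod_cast two_le_nm v
    have hx : ‖x‖ ^ 2 = nm v := by
      have := Complex.mul_conj x
      rw [h3] at this
      rw [← Complex.normSq_eq_norm_sq]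
      exact_mod_cast this.symm
    have hwn : ‖w‖ ≤ (nm v : ℝ)⁻¹ := by
      rw [hw, Complex.norm_natCast_cpow_of_pos (by have := two_le_nm v; omega), Complex.neg_re,
        ← Real.rpow_neg_one]
      exact Real.rpow_le_rpow_of_exponent_le (by linarith) (by linarith)
    have hlt : ‖x‖ * ‖w‖ < 1 := by
      have hq0 : (0 : ℝ) < nm v := by linarith
      have h5 : ‖x‖ * ‖w‖ ≤ ‖x‖ * (nm v : ℝ)⁻¹ := by gcongr
      refine h5.trans_lt ?_
      rw [← div_eq_mul_inv, div_lt_one hq0, ← hx]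
      have h6 : 1 < ‖x‖ := by
        by_contra hc
        push Not at hc
        have : ‖x‖ ^ 2 ≤ 1 := pow_le_one₀ (norm_nonneg _) hc
        rw [hx] at this
        linarith
      nlinarith
    have h7 : 1 - (x + (starRingEnd ℂ) x) * w + (x * (starRingEnd ℂ) x) * w ^ 2 =
        (1 - x * w) * (1 - (starRingEnd ℂ) x * w) := by ring
    rw [h7]
    refine mul_ne_zero ?_ ?_
    · intro h8
      have h9 : x * w = 1 := by linear_combination -h8
      have : ‖x * w‖ = 1 := by rw [h9, norm_one]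
      rw [norm_mul] at this
      linarith
    · intro h8
      have h9 : (starRingEnd ℂ) x * w = 1 := by linear_combination -h8
      have : ‖(starRingEnd ℂ) x * w‖ = 1 := by rw [h9, norm_one]
      rw [norm_mul, RCLike.norm_conj] at this
      linarith

theorem Pv_diff (v : HeightOneSpectrum (𝓞 k)) : Differentiable ℂ (Pv v) := by
  have hc : Differentiable ℂ (fun s : ℂ => (nm v : ℂ) ^ (-s)) :=
    Differentiable.const_cpow differentiable_neg (Or.inl (by
      have := two_le_nm v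
      have : nm v ≠ 0 := by omega
      exact_mod_cast this))
  exact ((differentiable_const _).sub (hc.const_mul _)).add ((hc.pow 2).const_mul _)

/-- the trace of Frobenius -/
theorem aV_card (v : HeightOneSpectrum (𝓞 k)) (h2 : (2 : 𝓞 k) ∉ v.asIdeal)
    (h3 : (3 : 𝓞 k) ∉ v.asIdeal) :
    (aV (E0 k) v : ℂ) = (Nat.card (𝓞 k ⧸ v.asIdeal) : ℂ) -
      Nat.card {P : (𝓞 k ⧸ v.asIdeal) × (𝓞 k ⧸ v.asIdeal) // P.2 ^ 2 = P.1 ^ 3 + 0 * P.1 + 16} ∧
    (eV (E0 k) v : ℂ) = Nat.card (𝓞 k ⧸ v.asIdeal) := by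
  have : v.asIdeal.IsMaximal := v.isMaximal
  let _ : Field (𝓞 k ⧸ v.asIdeal) := Ideal.Quotient.field v.asIdeal
  have : Finite (𝓞 k ⧸ v.asIdeal) := Ideal.finiteQuotientOfFreeOfNeBot _ v.ne_bot
  have h2k : (2 : 𝓞 k ⧸ v.asIdeal) ≠ 0 := by
    intro h
    apply h2
    rw [← Ideal.Quotient.eq_zero_iff_mem, map_ofNat]
    exact h
  obtain ⟨h4, h5⟩ := aV_good v h3
  have hf1 := finite_res v
  let _ : Fintype (ResidueField (Ov v)) := Fintype.ofFinite _
  let _ : Fintype (𝓞 k ⧸ v.asIdeal) := Fintype.ofFinite _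
  have hn : Nat.card (𝓞 k ⧸ v.asIdeal) = nm v := rfl
  have hc : Fintype.card (ResidueField (Ov v)) = Fintype.card (𝓞 k ⧸ v.asIdeal) := by
    rw [← Nat.card_eq_fintype_card, ← Nat.card_eq_fintype_card, hn]
    exact card_res v
  have e := FiniteField.ringEquivOfCardEq hc
  have h6 : Nat.card (Aff (ResidueField (Ov v))) = Nat.card {P : (𝓞 k ⧸ v.asIdeal) ×
      (𝓞 k ⧸ v.asIdeal) // P.2 ^ 2 = P.1 ^ 3 + 0 * P.1 + 16} :=
    (aff_iso e).trans (card_aff h2k)
  constructor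
  · rw [h4, h6, hn]
    push_cast
    rfl
  · rw [h5, hn]
    push_cast
    rfl

/-- the statement on the `L`-function of `X` -/
def IsLX (k : Type) [Field k] [NumberField k] (F : ℂ → ℂ) : Prop :=
  MeromorphicOn F Set.univ ∧ ∃ α : HeightOneSpectrum (𝓞 k) → Fin 4 → ℂ,
    (∀ v : HeightOneSpectrum (𝓞 k), (6 : 𝓞 k) ∉ v.asIdeal →
      ∀ n : ℕ, 1 ≤ n → ∀ (E : Type) [Field E] [Finite E] (φ : 𝓞 k →+* E),
        RingHom.ker φ = v.asIdeal → Nat.card E = Nat.card (𝓞 k ⧸ v.asIdeal) ^ n →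
          (pts E : ℂ) = (Nat.card E : ℂ) + 1 - ∑ j, α v j ^ n) ∧
    ∀ s : ℂ, (3 : ℝ) / 2 < s.re → HasProd (fun v : HeightOneSpectrum (𝓞 k) =>
      open Classical in
      if (6 : 𝓞 k) ∈ v.asIdeal then 1 else
        (∏ j, (1 - α v j * (Nat.card (𝓞 k ⧸ v.asIdeal) : ℂ) ^ (-s)))⁻¹) (F s)

theorem exists_LX (hH : ∀ v : HeightOneSpectrum (𝓞 k), HBd (aV (E0 k) v) (eV (E0 k) v) (nm v))
    (Lf : ℂ → ℂ) (hm : MeromorphicOn Lf Set.univ) (ha : AnalyticAt ℂ Lf 1) (h1 : Lf 1 ≠ 0)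
    (hs : ∀ s : ℂ, 3 / 2 < s.re → Lf s = (E0 k).LSeries s) :
    ∃ F : ℂ → ℂ, IsLX k F ∧ AnalyticAt ℂ F 1 ∧ F 1 ≠ 0 := by
  classical
  have h60 : (6 : 𝓞 k) ≠ 0 := by
    have : ((6 : ℕ) : 𝓞 k) ≠ 0 := by
      rw [Nat.cast_ne_zero]; norm_num
    exact_mod_cast this
  have hfin : {v : HeightOneSpectrum (𝓞 k) | (6 : 𝓞 k) ∈ v.asIdeal}.Finite := by
    have h : {v : HeightOneSpectrum (𝓞 k) | v.asIdeal ∣ Ideal.span {(6 : 𝓞 k)}}.Finite :=
      Ideal.finite_factors (fun h => h60 (Ideal.span_singleton_eq_bot.1 h))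
    exact h.subset fun v hv => Ideal.dvd_span_singleton.2 hv
  let T : Finset (HeightOneSpectrum (𝓞 k)) := hfin.toFinset
  have hT : ∀ v, v ∈ T ↔ (6 : 𝓞 k) ∈ v.asIdeal := fun v => by simp [T]
  choose α β hαβ hαβ' using fun v : HeightOneSpectrum (𝓞 k) =>
    exists_rts (aV (E0 k) v : ℂ) (eV (E0 k) v : ℂ)
  have hGd : Differentiable ℂ (fun s => ∏ v ∈ T, Pv v s ^ 2) :=
    Differentiable.fun_finsetProd fun v _ => (Pv_diff v).pow 2
  have hnm : ∀ v : HeightOneSpectrum (𝓞 k), Nat.card (𝓞 k ⧸ v.asIdeal) = nm v := fun v => rfl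
  have h236 : ∀ v : HeightOneSpectrum (𝓞 k), (6 : 𝓞 k) ∉ v.asIdeal →
      (2 : 𝓞 k) ∉ v.asIdeal ∧ (3 : 𝓞 k) ∉ v.asIdeal := by
    intro v hv
    have e : (6 : 𝓞 k) = 2 * 3 := by norm_num
    constructor
    · intro h; exact hv (by rw [e]; exact v.asIdeal.mul_mem_right _ h)
    · intro h; exact hv (by rw [e]; exact v.asIdeal.mul_mem_left _ h)
  refine ⟨fun s => (Lf s * Lf s) * ∏ v ∈ T, Pv v s ^ 2,
    ⟨(hm.mul hm).mul (fun z _ => (hGd.analyticAt z).meromorphicAt),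
      fun v => ![α v, β v, α v, β v], ?_, ?_⟩, (ha.mul ha).mul (hGd.analyticAt 1), ?_⟩
  · intro v hv n hn E _ _ φ hker hE
    obtain ⟨h2v, h3v⟩ := h236 v hv
    have : v.asIdeal.IsMaximal := v.isMaximal
    obtain ⟨k1, k2⟩ := aV_card v h2v h3v
    let _ : Field (𝓞 k ⧸ v.asIdeal) := Ideal.Quotient.field v.asIdeal
    have : Finite (𝓞 k ⧸ v.asIdeal) := Ideal.finiteQuotientOfFreeOfNeBot _ v.ne_bot
    have h2k : (2 : 𝓞 k ⧸ v.asIdeal) ≠ 0 := by
      intro h
      apply h2v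
      rw [← Ideal.Quotient.eq_zero_iff_mem, map_ofNat]
      exact h
    have h3k : (3 : 𝓞 k ⧸ v.asIdeal) ≠ 0 := by
      intro h
      apply h3v
      rw [← Ideal.Quotient.eq_zero_iff_mem, map_ofNat]
      exact h
    let ψ : 𝓞 k ⧸ v.asIdeal →+* E := Ideal.Quotient.lift v.asIdeal φ (fun a ha => by
      rw [← hker] at ha; exact ha)
    have h9 := pts_eq h2k h3k (α v) (β v) ((hαβ v).trans k1) ((hαβ' v).trans k2) n hn E ψ hE
    rw [h9]
    simp only [Fin.sum_univ_four, Matrix.cons_val_zero, Matrix.cons_val_one, Matrix.cons_val]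
  · intro s hs'
    have h5 := (LSeries_hasProd' (E0 k) hH hs').2
    rw [← hs s hs'] at h5
    have h5' : HasProd (fun v : HeightOneSpectrum (𝓞 k) => (Pv v s)⁻¹) (Lf s) := h5
    have h6 : HasProd (fun v => if v ∈ T then Pv v s ^ 2 else 1) (∏ v ∈ T, Pv v s ^ 2) := by
      have h0 : HasProd (fun v => if v ∈ T then Pv v s ^ 2 else 1)
          (∏ v ∈ T, if v ∈ T then Pv v s ^ 2 else 1) :=
        hasProd_prod_of_ne_finset_one (fun b hb => by simp [hb])
      convert h0 using 1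
      exact prod_congr rfl fun v hv => by simp [hv]
    have h7 := (h5'.mul h5').mul h6
    convert h7 using 1
    funext v
    have hne := Pv_ne hH v s (by linarith)
    by_cases hv : (6 : 𝓞 k) ∈ v.asIdeal
    · rw [if_pos hv, if_pos ((hT v).2 hv)]
      field_simp
    · rw [if_neg hv, if_neg (fun h => hv ((hT v).1 h)), mul_one, ← mul_inv]
      congr 1
      have h8 : Pv v s = (1 - α v * (nm v : ℂ) ^ (-s)) * (1 - β v * (nm v : ℂ) ^ (-s)) := by
        unfold Pv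
        rw [← hαβ v, ← hαβ' v]
        ring
      rw [h8, hnm]
      simp only [Fin.prod_univ_four, Matrix.cons_val_zero, Matrix.cons_val_one, Matrix.cons_val]
      ring
  · refine mul_ne_zero (mul_ne_zero h1 h1) (prod_ne_zero_iff.2 fun v _ => pow_ne_zero 2 ?_)
    exact Pv_ne hH v 1 (by simp)

end main

end Pool.Agent.K7.H65.G4
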