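import Pool.Agent.K7.H65.G4.Curve

set_option autoImplicit false
set_option linter.unusedSectionVars false

/-!
# The quotients of the curve `y² = 2 x⁶ - 30 x⁴ + 150 x² + 6`

The quotient by `ρ` is the conic `v² = 18 w² + 6`, and the quotient by `σ` is the elliptic curve
`Y² = X³ + 16`, `X = (x² - 5) / 2`, `Y = y / 4`.
-/

namespace Pool.Agent.K7.H65.G4

open Polynomial Pool.Agent.TH943.HJ

variable {F : Type} [Field F] [CharZero F]
variable {B : Type} [CommRing B] [Algebra (CR (sx F)) B] [Algebra F B] [IsScalarTower F (CR (sx F)) B]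
  [IsLocalization.Away (pp (X ^ 2 - 1) : CR (sx F)) B]

theorem inv_alg {B : Type} [CommRing B] [Algebra F B] (n : ℕ) [n.AtLeastTwo] :
    algebraMap F B (1 / OfNat.ofNat n) * OfNat.ofNat n = 1 := by
  have h := map_mul (algebraMap F B) (1 / OfNat.ofNat n) (OfNat.ofNat n)
  rw [map_ofNat] at h
  rw [← h, one_div_mul_cancel (OfNat.ofNat_ne_zero n), map_one]

/-! ### The quotient by `ρ` -/

theorem hom_qc {S : Type} [CommRing S] (f : F[X] →+* S) : f (qc F) = 18 * f X ^ 2 + 6 := by
  unfold qc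
  simp only [map_add, map_mul, map_pow, map_ofNat]

theorem eval_phc : (X ^ 2 - C (qc F) : F[X][X]).eval₂
    (eval₂RingHom (algebraMap F B) (algebraMap F B (1 / 3) * (gens F B).w3)) (gens F B).v = 0 := by
  rw [eval₂_sub, eval₂_pow, eval₂_X, eval₂_C, (gens F B).v_sq, hom_qc, coe_eval₂RingHom, eval₂_X]
  have h := inv_alg (F := F) (B := B) 3
  generalize algebraMap F B (1 / 3) = c at *
  have h' : c * 3 = 1 := h
  linear_combination (-2 * (gens F B).w3 ^ 2) * (c * 3 + 1) * h'

variable (F B) in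
/-- the map to the conic -/
noncomputable def phc : CR (qc F) →+* B :=
  AdjoinRoot.lift (eval₂RingHom (algebraMap F B) (algebraMap F B (1 / 3) * (gens F B).w3))
    (gens F B).v eval_phc

theorem phc_pp (p : F[X]) : phc F B (pp p) =
    eval₂RingHom (algebraMap F B) (algebraMap F B (1 / 3) * (gens F B).w3) p :=
  AdjoinRoot.lift_of (i := eval₂RingHom (algebraMap F B) (algebraMap F B (1 / 3) * (gens F B).w3))
    (h := eval_phc) (x := p)

theorem phc_yy : phc F B (yy (qc F)) = (gens F B).v :=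
  AdjoinRoot.lift_root
    (i := eval₂RingHom (algebraMap F B) (algebraMap F B (1 / 3) * (gens F B).w3)) eval_phc

theorem phc_F (a : F) : algebraMap F B a ∈ (phc F B).range := ⟨pp (C a), by rw [phc_pp]; simp⟩

theorem phc_v : (gens F B).v ∈ (phc F B).range := ⟨_, phc_yy⟩

theorem phc_num (n : ℕ) [n.AtLeastTwo] : (OfNat.ofNat n : B) ∈ (phc F B).range := by
  have := phc_F (F := F) (B := B) (OfNat.ofNat n)
  rwa [map_ofNat] at this

theorem phc_w : (gens F B).w3 ∈ (phc F B).range := by
  have h := inv_alg (F := F) (B := B) 3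
  have h1 : (gens F B).w3 = 3 * phc F B (pp X) := by
    rw [phc_pp, coe_eval₂RingHom, eval₂_X]
    have h' : algebraMap F B (1 / 3) * 3 = 1 := h
    linear_combination (-(gens F B).w3) * h'
  rw [h1]
  exact mul_mem (phc_num 3) ⟨_, rfl⟩

theorem rho_w : rho F B (gens F B).w3 = (gens F B).w3 := by
  have h := (gens F B).e1
  rw [← rho_x, ← rho2_x] at h
  have h' := congrArg (rho F B) h
  rw [map_add, map_add, rho3] at h'
  rw [← h', ← h]
  ring

theorem rho_v : rho F B (gens F B).v = (gens F B).v := by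
  apply cancel2 (F := F)
  apply cancel2 (F := F)
  apply cancel2 (F := F)
  unfold Gen.v
  rw [map_neg, map_mul, map_mul, rho_y]
  have h1 := (gens F B).h1
  have hi1 := rho_i1 (F := F) (B := B)
  have hi2 := rho_i2 (F := F) (B := B)
  generalize rho F B (gens F B).i1 = A at *
  generalize rho F B (gens F B).i2 = A' at *
  generalize (gens F B).y = y at *
  generalize (gens F B).x = x at *
  generalize (gens F B).i1 = i1 at *
  generalize (gens F B).i2 = i2 at *
  have a2 : (x - 1) ^ 2 * i1 ^ 2 = 1 := by rw [← mul_pow, h1, one_pow]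
  have e : 8 * (A * A') = (x - 1) ^ 2 * i2 := by
    calc 8 * (A * A') = (2 * A) * (4 * A') := by ring
      _ = _ := by rw [hi1, hi2]; ring
  linear_combination (-(8 * i1 ^ 3 * y)) * e + (-8 * i1 * i2 * y) * a2

theorem rho_fix (a : B) (ha : a ∈ (phc F B).range) : rho F B a = a := by
  obtain ⟨r, rfl⟩ := ha
  obtain ⟨p, q, rfl⟩ := exists_el r
  have hp : ∀ p : F[X], rho F B (phc F B (pp p)) = phc F B (pp p) := by
    intro p
    have : (rho F B).comp ((phc F B).comp pp) = (phc F B).comp pp := by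
      apply Polynomial.ringHom_ext
      · intro a
        simp only [RingHom.comp_apply]
        rw [phc_pp]
        simp only [coe_eval₂RingHom, eval₂_C, rho_F]
      · simp only [RingHom.comp_apply]
        rw [phc_pp]
        simp only [coe_eval₂RingHom, eval₂_X, map_mul, rho_F, rho_w]
    exact congrArg (fun f => f p) this
  unfold el
  rw [map_add, map_mul, map_add, map_mul, hp, hp, phc_yy, rho_v]

theorem exists_abc (z : B) : ∃ a ∈ (phc F B).range, ∃ b ∈ (phc F B).range, ∃ c ∈ (phc F B).range,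
    z = a + b * (gens F B).x + c * (gens F B).x ^ 2 := by
  let T : Set B := {z | ∃ a ∈ (phc F B).range, ∃ b ∈ (phc F B).range, ∃ c ∈ (phc F B).range,
    z = a + b * (gens F B).x + c * (gens F B).x ^ 2}
  have hw := phc_w (F := F) (B := B)
  have hadd : ∀ z ∈ T, ∀ w ∈ T, z + w ∈ T := by
    rintro z ⟨a, ha, b, hb, c, hc, rfl⟩ w ⟨a', ha', b', hb', c', hc', rfl⟩
    exact ⟨_, add_mem ha ha', _, add_mem hb hb', _, add_mem hc hc', by ring⟩
  have hS : ∀ s ∈ (phc F B).range, ∀ z ∈ T, s * z ∈ T := by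
    rintro s hs z ⟨a, ha, b, hb, c, hc, rfl⟩
    exact ⟨_, mul_mem hs ha, _, mul_mem hs hb, _, mul_mem hs hc, by ring⟩
  have hx : ∀ z ∈ T, (gens F B).x * z ∈ T := by
    rintro z ⟨a, ha, b, hb, c, hc, rfl⟩
    refine ⟨_, neg_mem (mul_mem hc hw), _, add_mem ha (mul_mem (phc_num 9) hc), _,
      add_mem hb (mul_mem hc hw), ?_⟩
    linear_combination c * (gens F B).cub
  have hneg : ∀ z ∈ T, -z ∈ T := by
    rintro z ⟨a, ha, b, hb, c, hc, rfl⟩
    exact ⟨_, neg_mem ha, _, neg_mem hb, _, neg_mem hc, by ring⟩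
  have hone : (1 : B) ∈ T := ⟨1, one_mem _, 0, zero_mem _, 0, zero_mem _, by ring⟩
  have hF : ∀ a, algebraMap F B a ∈ T := fun a =>
    ⟨_, phc_F a, 0, zero_mem _, 0, zero_mem _, by ring⟩
  have hy : ∀ z ∈ T, (gens F B).y * z ∈ T := by
    intro z hz
    have e : (gens F B).y * z = (gens F B).v * (z + -((gens F B).x * ((gens F B).x * z))) := by
      linear_combination z * (gens F B).y_eq
    rw [e]
    exact hS _ phc_v _ (hadd _ hz _ (hneg _ (hx _ (hx _ hz))))
  have h8 : algebraMap F B (1 / 8) * 8 = 1 := inv_alg (F := F) (B := B) 8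
  have hi1 : ∀ z ∈ T, (gens F B).i1 * z ∈ T := by
    intro z hz
    have e : (gens F B).i1 * z = algebraMap F B (1 / 8) * ((gens F B).x * ((gens F B).x * z) +
        ((gens F B).x * z + (-(8 * z) + -((gens F B).w3 * ((gens F B).x * z + z))))) := by
      linear_combination (algebraMap F B (1 / 8) * z) * (gens F B).i1_eq -
        ((gens F B).i1 * z) * h8
    rw [e]
    refine hS _ (phc_F _) _ (hadd _ (hx _ (hx _ hz)) _ (hadd _ (hx _ hz) _ (hadd _ ?_ _ ?_)))
    · exact hneg _ (hS _ (phc_num 8) _ hz)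
    · exact hneg _ (hS _ hw _ (hadd _ (hx _ hz) _ hz))
  have hi2 : ∀ z ∈ T, (gens F B).i2 * z ∈ T := by
    intro z hz
    have e : (gens F B).i2 * z = algebraMap F B (1 / 8) * (-((gens F B).x * ((gens F B).x * z)) +
        ((gens F B).x * z + (8 * z + (gens F B).w3 * ((gens F B).x * z + -z)))) := by
      linear_combination (algebraMap F B (1 / 8) * z) * (gens F B).i2_eq -
        ((gens F B).i2 * z) * h8
    rw [e]
    refine hS _ (phc_F _) _ (hadd _ (hneg _ (hx _ (hx _ hz))) _ (hadd _ (hx _ hz) _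
      (hadd _ ?_ _ ?_)))
    · exact hS _ (phc_num 8) _ hz
    · exact hS _ hw _ (hadd _ (hx _ hz) _ (hneg _ hz))
  have hpoly : ∀ p : F[X], ∀ z ∈ T, jj F B p * z ∈ T := by
    intro p z hz
    induction p using Polynomial.induction_on with
    | C a => rw [jj_C (F := F) (B := B)]; exact hS _ (phc_F a) _ hz
    | add p q hp hq => rw [map_add, add_mul]; exact hadd _ hp _ hq
    | monomial n a ih =>
      have h1 : jj F B (C a * X ^ (n + 1)) * z = (gens F B).x * (jj F B (C a * X ^ n) * z) := by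
        have : (gens F B).x = jj F B X := rfl
        rw [this, pow_succ, ← mul_assoc (C a), map_mul]
        ring
      rw [h1]
      exact hx _ ih
  obtain ⟨n, p, q, rfl⟩ := exists_rep (F := F) z
  show _ ∈ T
  have hn : ∀ (n : ℕ), ∀ z ∈ T, ((gens F B).i1 * (gens F B).i2) ^ n * z ∈ T := by
    intro n z hz
    induction n with
    | zero => rwa [pow_zero, one_mul]
    | succ n ih =>
      rw [pow_succ', mul_assoc, mul_assoc]
      exact hi1 _ (hi2 _ ih)
  apply hn
  refine hadd _ ?_ _ ?_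
  · have := hpoly p 1 hone
    rwa [mul_one] at this
  · have := hpoly q _ (hy _ hone)
    rwa [mul_one] at this

theorem norm_rho (z : B) : ∃ r, phc F B r = z * rho F B z * rho F B (rho F B z) := by
  obtain ⟨a, ha, b, hb, c, hc, rfl⟩ := exists_abc (F := F) z
  have hw := phc_w (F := F) (B := B)
  have e1 := (gens F B).e1
  have e2 := (gens F B).e2
  have e3 := (gens F B).e3
  rw [← rho_x, ← rho2_x] at e1
  have e2' : (gens F B).x * rho F B (gens F B).x + (gens F B).x * rho F B (rho F B (gens F B).x) +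
      rho F B (gens F B).x * rho F B (rho F B (gens F B).x) = -9 := by
    rw [rho2_x, rho_x]; exact e2
  have e3' : (gens F B).x * rho F B (gens F B).x * rho F B (rho F B (gens F B).x) =
      -(gens F B).w3 := by
    rw [rho2_x, rho_x]; exact e3
  have hr : ∀ z, rho F B (a + b * z + c * z ^ 2) = a + b * rho F B z + c * rho F B z ^ 2 := by
    intro z
    rw [map_add, map_add, map_mul, map_mul, map_pow, rho_fix a ha, rho_fix b hb, rho_fix c hc]
  rw [hr, hr, norm_formula a b c _ _ _ _ _ _ e1 e2' e3']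
  obtain ⟨a, rfl⟩ := ha
  obtain ⟨b, rfl⟩ := hb
  obtain ⟨c, rfl⟩ := hc
  obtain ⟨w, hw⟩ := hw
  rw [← hw]
  refine ⟨a ^ 3 + a ^ 2 * b * w + a ^ 2 * c * (w ^ 2 - 2 * -9) + a * b ^ 2 * -9 +
    a * b * c * (w * -9 - 3 * -w) + a * c ^ 2 * ((-9) ^ 2 - 2 * w * -w) + b ^ 3 * -w +
    b ^ 2 * c * (w * -w) + b * c ^ 2 * (-9 * -w) + c ^ 3 * (-w) ^ 2, ?_⟩
  simp only [map_add, map_sub, map_mul, map_pow, map_neg, map_ofNat]

/-! ### The quotient by `σ` -/

variable (F) in
/-- `x³ + 16` -/
noncomputable def ce : F[X] := X ^ 3 + 16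

theorem hom_ce {S : Type} [CommRing S] (f : F[X] →+* S) : f (ce F) = f X ^ 3 + 16 := by
  unfold ce
  simp only [map_add, map_pow, map_ofNat]

theorem eval_phe : (X ^ 2 - C (ce F) : F[X][X]).eval₂ (eval₂RingHom (algebraMap F B)
    (algebraMap F B (1 / 2) * ((gens F B).x ^ 2 - 5))) (algebraMap F B (1 / 4) * (gens F B).y) =
    0 := by
  rw [eval₂_sub, eval₂_pow, eval₂_X, eval₂_C, hom_ce, coe_eval₂RingHom, eval₂_X]
  have hy := (gens F B).hy
  have h4 : algebraMap F B (1 / 4) * 4 = 1 := inv_alg (F := F) (B := B) 4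
  have h2 : algebraMap F B (1 / 4) * 2 = algebraMap F B (1 / 2) := by
    have h := map_mul (algebraMap F B) (1 / 4) 2
    rw [map_ofNat] at h
    rw [← h]
    norm_num
  generalize algebraMap F B (1 / 2) = c at *
  generalize algebraMap F B (1 / 4) = d at *
  subst h2
  generalize (gens F B).y = y at *
  generalize (gens F B).x = x at *
  linear_combination d ^ 2 * hy + (-(2 * d ^ 2 * (x ^ 2 - 5) ^ 3) + 16 * (d * 4 + 1)) * h4

variable (F B) in
/-- the map to the elliptic curve -/
noncomputable def phe : CR (ce F) →+* B :=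
  AdjoinRoot.lift (eval₂RingHom (algebraMap F B)
    (algebraMap F B (1 / 2) * ((gens F B).x ^ 2 - 5))) (algebraMap F B (1 / 4) * (gens F B).y)
    eval_phe

theorem phe_pp (p : F[X]) : phe F B (pp p) = eval₂RingHom (algebraMap F B)
    (algebraMap F B (1 / 2) * ((gens F B).x ^ 2 - 5)) p :=
  AdjoinRoot.lift_of (i := eval₂RingHom (algebraMap F B)
    (algebraMap F B (1 / 2) * ((gens F B).x ^ 2 - 5))) (h := eval_phe) (x := p)

theorem phe_yy : phe F B (yy (ce F)) = algebraMap F B (1 / 4) * (gens F B).y :=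
  AdjoinRoot.lift_root (i := eval₂RingHom (algebraMap F B)
    (algebraMap F B (1 / 2) * ((gens F B).x ^ 2 - 5))) eval_phe

theorem phe_F (a : F) : algebraMap F B a ∈ (phe F B).range := ⟨pp (C a), by rw [phe_pp]; simp⟩

theorem phe_num (n : ℕ) [n.AtLeastTwo] : (OfNat.ofNat n : B) ∈ (phe F B).range := by
  have := phe_F (F := F) (B := B) (OfNat.ofNat n)
  rwa [map_ofNat] at this

theorem phe_x : (gens F B).x ^ 2 ∈ (phe F B).range := by
  have h2 : algebraMap F B (1 / 2) * 2 = 1 := inv_alg (F := F) (B := B) 2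
  have h1 : (gens F B).x ^ 2 = 2 * phe F B (pp X) + 5 := by
    rw [phe_pp, coe_eval₂RingHom, eval₂_X]
    linear_combination (-((gens F B).x ^ 2 - 5)) * h2
  rw [h1]
  exact add_mem (mul_mem (phe_num 2) ⟨_, rfl⟩) (phe_num 5)

theorem phe_y : (gens F B).y ∈ (phe F B).range := by
  have h4 : algebraMap F B (1 / 4) * 4 = 1 := inv_alg (F := F) (B := B) 4
  have h1 : (gens F B).y = 4 * phe F B (yy (ce F)) := by
    rw [phe_yy]
    linear_combination (-(gens F B).y) * h4
  rw [h1]
  exact mul_mem (phe_num 4) ⟨_, rfl⟩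

theorem sig_fix (a : B) (ha : a ∈ (phe F B).range) : sig F B a = a := by
  obtain ⟨r, rfl⟩ := ha
  obtain ⟨p, q, rfl⟩ := exists_el r
  have hp : ∀ p : F[X], sig F B (phe F B (pp p)) = phe F B (pp p) := by
    intro p
    have : (sig F B).comp ((phe F B).comp pp) = (phe F B).comp pp := by
      apply Polynomial.ringHom_ext
      · intro a
        simp only [RingHom.comp_apply]
        rw [phe_pp]
        simp only [coe_eval₂RingHom, eval₂_C, sig_F]
      · simp only [RingHom.comp_apply]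
        rw [phe_pp]
        simp only [coe_eval₂RingHom, eval₂_X, map_mul, map_sub, map_pow, map_ofNat, sig_F, sig_x, neg_sq]
    exact congrArg (fun f => f p) this
  unfold el
  rw [map_add, map_mul, map_add, map_mul, hp, hp, phe_yy, map_mul, sig_F, sig_y]

theorem exists_ab (p : F[X]) : ∃ a ∈ (phe F B).range, ∃ b ∈ (phe F B).range,
    jj F B p = a + b * (gens F B).x := by
  induction p using Polynomial.induction_on with
  | C a => exact ⟨_, phe_F a, 0, zero_mem _, by rw [jj_C]; ring⟩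
  | add p q hp hq =>
    obtain ⟨a, ha, b, hb, h1⟩ := hp
    obtain ⟨c, hc, d, hd, h2⟩ := hq
    exact ⟨_, add_mem ha hc, _, add_mem hb hd, by rw [map_add, h1, h2]; ring⟩
  | monomial n a ih =>
    obtain ⟨c, hc, d, hd, h1⟩ := ih
    refine ⟨_, mul_mem hd phe_x, c, hc, ?_⟩
    have h2 : jj F B (C a * X ^ (n + 1)) = (gens F B).x * jj F B (C a * X ^ n) := by
      have : (gens F B).x = jj F B X := rfl
      rw [this, pow_succ, ← mul_assoc (C a), map_mul]
      ring
    rw [h2, h1]
    ring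

theorem sig_i12 : sig F B ((gens F B).i1 * (gens F B).i2) = (gens F B).i1 * (gens F B).i2 := by
  have h := (gens F B).i12
  have h' := congrArg (sig F B) h
  rw [map_mul, map_sub, map_pow, map_one, sig_x, neg_sq] at h'
  linear_combination ((gens F B).i1 * (gens F B).i2) * h' -
    sig F B ((gens F B).i1 * (gens F B).i2) * h

theorem norm_sig (z : B) : ∃ r w, IsUnit w ∧ phe F B r = w * (z * sig F B z) := by
  obtain ⟨n, p, q, rfl⟩ := exists_rep (F := F) z
  obtain ⟨a, ha, b, hb, h1⟩ := exists_ab (F := F) (B := B) p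
  obtain ⟨c, hc, d, hd, h2⟩ := exists_ab (F := F) (B := B) q
  have hy := phe_y (F := F) (B := B)
  have hx := phe_x (F := F) (B := B)
  have hi : (((gens F B).x ^ 2 - 1) ^ n) ^ 2 * (((gens F B).i1 * (gens F B).i2) ^ n) ^ 2 = 1 := by
    rw [← mul_pow, ← mul_pow, (gens F B).i12, one_pow, one_pow]
  have e : (((gens F B).x ^ 2 - 1) ^ n) ^ 2 * (((gens F B).i1 * (gens F B).i2) ^ n *
      (jj F B p + jj F B q * (gens F B).y) * sig F B (((gens F B).i1 * (gens F B).i2) ^ n *
      (jj F B p + jj F B q * (gens F B).y))) = (a + c * (gens F B).y) ^ 2 -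
        (b + d * (gens F B).y) ^ 2 * (gens F B).x ^ 2 := by
    rw [map_mul, map_pow, sig_i12, map_add, map_mul, h1, h2, sig_y, map_add, map_mul, map_add, map_mul,
      sig_x, sig_fix a ha, sig_fix b hb, sig_fix c hc, sig_fix d hd]
    linear_combination ((a + c * (gens F B).y) ^ 2 -
        (b + d * (gens F B).y) ^ 2 * (gens F B).x ^ 2) * hi
  have hm : (a + c * (gens F B).y) ^ 2 - (b + d * (gens F B).y) ^ 2 * (gens F B).x ^ 2 ∈
      (phe F B).range := by
    apply_rules [add_mem, sub_mem, mul_mem, pow_mem]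
  obtain ⟨r, hr⟩ := hm
  exact ⟨r, (((gens F B).x ^ 2 - 1) ^ n) ^ 2, IsUnit.of_mul_eq_one _ hi, by rw [hr, ← e]⟩

end Pool.Agent.K7.H65.G4
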