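import Pool.Agent.K7.H65.G4.Quot
import Pool.Agent.K7.H65.G3.Rank

set_option autoImplicit false
set_option linter.unusedSectionVars false

/-!
# The exponent of the class group of the affine curve `y² = 2 x⁶ - 30 x⁴ + 150 x² + 6`
-/

namespace Pool.Agent.K7.H65.G4

open Polynomial Pool.Agent.TH943.HJ

/-! ### Descent -/

/-- An ideal whose extension is principal is principal, if the divisors of the powers of `x` are
principal. -/
theorem descendP {A B : Type} [CommRing A] [IsDedekindDomain A] [CommRing B] [IsDomain B]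
    [Algebra A B] (x : A) (hx0 : x ≠ 0) [IsLocalization.Away x B]
    (hK : ∀ (n : ℕ) (K : Ideal A), K ∣ Ideal.span {x ^ n} → ∃ c, K = Ideal.span {c})
    {I : Ideal A} {b : B} (h : I.map (algebraMap A B) = Ideal.span {b}) :
    ∃ a, I = Ideal.span {a} := by
  have hM : Submonoid.powers x ≤ nonZeroDivisors A := powers_le_nonZeroDivisors_of_noZeroDivisors hx0
  have hinj : Function.Injective (algebraMap A B) := IsLocalization.injective B hM
  rcases eq_or_ne I ⊥ with rfl | hI
  · exact ⟨0, by simp⟩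
  obtain ⟨⟨a, s⟩, hab⟩ := IsLocalization.surj (Submonoid.powers x) b
  simp only at hab
  have hsu : IsUnit (algebraMap A B s) := IsLocalization.map_units B s
  have h2 : I.map (algebraMap A B) = (Ideal.span {a}).map (algebraMap A B) := by
    rw [h, Ideal.map_span, Set.image_singleton, ← hab, Ideal.span_singleton_mul_right_unit hsu]
  have ha0 : a ≠ 0 := by
    rintro rfl
    have h3 : I.map (algebraMap A B) = ⊥ := by
      rw [h2, Ideal.span_singleton_eq_bot.2 rfl, Ideal.map_bot]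
    exact hI ((Ideal.map_eq_bot_iff_of_injective hinj).1 h3)
  obtain ⟨N, hN⟩ := G2.exists_pow_mul_le (B := B) x hx0 h2
  obtain ⟨M, hM'⟩ := G2.exists_pow_mul_le (B := B) x hx0 h2.symm
  obtain ⟨K, hK1⟩ := Ideal.dvd_iff_le.2 hN
  obtain ⟨K', hK'⟩ := Ideal.dvd_iff_le.2 hM'
  have hsa : Ideal.span {a} ≠ (0 : Ideal A) := fun h0 => ha0 (Ideal.span_singleton_eq_bot.1 h0)
  have h4 : K * K' = Ideal.span {x ^ (N + M)} := by
    have h5 : (I * Ideal.span {a}) * (K * K') = (I * Ideal.span {a}) * Ideal.span {x ^ (N + M)} := by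
      calc (I * Ideal.span {a}) * (K * K') = (Ideal.span {a} * K) * (I * K') := by ring
        _ = (Ideal.span {x ^ N} * I) * (Ideal.span {x ^ M} * Ideal.span {a}) := by rw [← hK1, ← hK']
        _ = (I * Ideal.span {a}) * (Ideal.span {x ^ N} * Ideal.span {x ^ M}) := by ring
        _ = _ := by rw [Ideal.span_singleton_mul_span_singleton, ← pow_add]
    exact mul_left_cancel₀ (mul_ne_zero hI hsa) h5
  obtain ⟨c, hc⟩ := hK _ K (Dvd.intro _ h4)
  have h7 : I * Ideal.span {x ^ N} = Ideal.span {a * c} := by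
    rw [mul_comm, hK1, hc, Ideal.span_singleton_mul_span_singleton]
  exact G2.principal_of_mul (pow_ne_zero N hx0) h7

theorem dvd_two {A : Type} [CommRing A] [IsDedekindDomain A] {p q : A} (hp : Prime p) (hq : Prime q)
    (n : ℕ) (K : Ideal A) (hK : K ∣ Ideal.span {(p * q) ^ n}) : ∃ c, K = Ideal.span {c} := by
  have hP : ∀ {p : A}, Prime p → Prime (Ideal.span {p}) := fun {p} hp =>
    Ideal.prime_of_isPrime (by rw [Ne, Ideal.span_singleton_eq_bot]; exact hp.ne_zero)
      ((Ideal.span_singleton_prime hp.ne_zero).2 hp)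
  have e : Ideal.span {(p * q) ^ n} = Ideal.span {p} ^ n * Ideal.span {q} ^ n := by
    rw [Ideal.span_singleton_pow, Ideal.span_singleton_pow, Ideal.span_singleton_mul_span_singleton,
      mul_pow]
  rw [e] at hK
  obtain ⟨K₁, K₂, h1, h2, rfl⟩ := exists_dvd_and_dvd_of_dvd_mul hK
  obtain ⟨i, -, hi⟩ := (dvd_prime_pow (hP hp) _).1 h1
  obtain ⟨j, -, hj⟩ := (dvd_prime_pow (hP hq) _).1 h2
  rw [associated_iff_eq] at hi hj
  exact ⟨p ^ i * q ^ j, by
    rw [hi, hj, Ideal.span_singleton_pow, Ideal.span_singleton_pow,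
      Ideal.span_singleton_mul_span_singleton]⟩

section primes

variable {F : Type} [Field F]

theorem dvd_lin {G : F[X]} (c : F) (h : ¬ IsSquare (G.eval c)) {p q : F[X]}
    (hpq : (p ^ 2 - G * q ^ 2).eval c = 0) : (pp (X - C c) : CR G) ∣ el p q := by
  rw [eval_sub, eval_mul, eval_pow, eval_pow] at hpq
  have hq : q.eval c = 0 := by
    by_contra hq
    apply h
    refine ⟨p.eval c / q.eval c, ?_⟩
    field_simp
    linear_combination -hpq
  have hp : p.eval c = 0 := by
    rw [hq] at hpq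
    have : p.eval c ^ 2 = 0 := by linear_combination hpq
    exact pow_eq_zero_iff (two_ne_zero) |>.1 this
  obtain ⟨p', rfl⟩ := dvd_iff_isRoot.2 hp
  obtain ⟨q', rfl⟩ := dvd_iff_isRoot.2 hq
  refine ⟨el p' q', ?_⟩
  unfold el
  rw [map_mul, map_mul]
  ring

theorem prime_lin {G : F[X]} (c : F) (h : ¬ IsSquare (G.eval c)) : Prime (pp (X - C c) : CR G) := by
  have key : ∀ {z : CR G}, (pp (X - C c) : CR G) ∣ z → ∃ p q, z = el p q ∧ p.eval c = 0 := by
    rintro z ⟨w, rfl⟩
    obtain ⟨p, q, rfl⟩ := exists_el w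
    refine ⟨(X - C c) * p, (X - C c) * q, ?_, by simp⟩
    unfold el
    rw [map_mul, map_mul]
    ring
  refine ⟨?_, ?_, ?_⟩
  · intro h0
    exact X_sub_C_ne_zero c (pp_inj (by rw [h0, map_zero]))
  · intro hu
    obtain ⟨p, q, h1, h2⟩ := key hu.dvd (z := 1)
    have h3 : (el 1 0 : CR G) = el p q := by rw [← h1, el_left, map_one]
    obtain ⟨rfl, -⟩ := el_inj h3
    simp at h2
  · intro a b hab
    obtain ⟨p, q, rfl⟩ := exists_el a
    obtain ⟨p', q', rfl⟩ := exists_el b
    have h1 : (pp (X - C c) : CR G) ∣ pp ((p ^ 2 - G * q ^ 2) * (p' ^ 2 - G * q' ^ 2)) := by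
      have e : (pp ((p ^ 2 - G * q ^ 2) * (p' ^ 2 - G * q' ^ 2)) : CR G) =
          (el p q * el p' q') * (cj G (el p q) * cj G (el p' q')) := by
        rw [map_mul, ← el_mul_cj, ← el_mul_cj]; ring
      rw [e]
      exact Dvd.dvd.mul_right hab _
    have h2 := pp_dvd h1
    rw [dvd_iff_isRoot, IsRoot, eval_mul] at h2
    rcases mul_eq_zero.1 h2 with h3 | h3
    · exact Or.inl (dvd_lin c h h3)
    · exact Or.inr (dvd_lin c h h3)

end primes

/-! ### The elliptic curve -/

variable {F : Type} [Field F] [CharZero F]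

theorem ce_C : ce F = X ^ 3 + C 16 := by
  unfold ce
  simp only [C_ofNat]

theorem natDegree_ce : (ce F).natDegree = 3 := by
  rw [ce_C]; compute_degree!

theorem ded_ce : IsDedekindDomain (CR (ce F)) := by
  refine Pool.Agent.TH943.HJ.dedekind (by norm_num) (by rw [natDegree_ce]; decide)
    (Polynomial.Separable.squarefree ?_)
  have hder : derivative (ce F) = C 3 * X ^ 2 := by
    rw [ce_C]
    simp only [derivative_add, derivative_X_pow, derivative_C, add_zero]
    norm_num
  refine ⟨C (1 / 16), C (-(1 / 48)) * X, ?_⟩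
  rw [hder, ce_C]
  have e : (C (1 / 16) : F[X]) * (X ^ 3 + C 16) + C (-(1 / 48)) * X * (C 3 * X ^ 2) =
      C (1 / 16 + -(1 / 48) * 3) * X ^ 3 + C (1 / 16 * 16) := by
    simp only [C_add, C_mul]
    ring
  rw [e]
  norm_num

variable (F) in
/-- `Y² + Y = X³` -/
def E27 : WeierstrassCurve F := ⟨0, 0, 1, 0, 0⟩

theorem finite_short [h : Finite (E27 F).toAffine.Point] :
    Finite (G3.ellS (0 : F) 16).Point := by
  classical
  let f : (G3.ellS (0 : F) 16).Point → (E27 F).toAffine.Point := fun P => match P with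
    | .zero => .zero
    | .some x y hP => .some (x / 4) ((y - 4) / 8) (by
        refine (WeierstrassCurve.Affine.equation_iff_nonsingular_of_Δ_ne_zero ?_).1 ?_
        · show (E27 F).Δ ≠ 0
          unfold E27 WeierstrassCurve.Δ WeierstrassCurve.b₂ WeierstrassCurve.b₄
            WeierstrassCurve.b₆ WeierstrassCurve.b₈
          norm_num
        · have h1 := (WeierstrassCurve.Affine.equation_iff _ _).1 hP.1
          rw [WeierstrassCurve.Affine.equation_iff]
          unfold G3.ellS at h1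
          unfold E27
          simp only [zero_mul, add_zero, one_mul] at h1 ⊢
          field_simp
          linear_combination 64 * h1)
  refine Finite.of_injective f ?_
  intro P Q hPQ
  cases P with
  | zero =>
    cases Q with
    | zero => rfl
    | some x y hQ => exact absurd hPQ (by simp [f])
  | some x y hP =>
    cases Q with
    | zero => exact absurd hPQ (by simp [f])
    | some x' y' hQ =>
      simp only [f, WeierstrassCurve.Affine.Point.some.injEq] at hPQ
      obtain ⟨h1, h2⟩ := hPQ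
      have hx : x = x' := by
        have h4 : (4 : F) ≠ 0 := by norm_num
        exact (div_left_inj' h4).1 h1
      have hy : y = y' := by
        have h8 : (8 : F) ≠ 0 := by norm_num
        have := (div_left_inj' h8).1 h2
        linear_combination this
      subst hx hy
      rfl

theorem ell_exp [Finite (E27 F).toAffine.Point] :
    ∃ e, 0 < e ∧ ∀ J : Ideal (CR (ce F)), ∃ a, J ^ e = Ideal.span {a} := by
  classical
  have hfin := finite_short (F := F)
  have key : ∀ p : F[X][X], p = X ^ 2 - C (ce F) → IsDedekindDomain (AdjoinRoot p) ∧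
      ∀ e : ℕ, (∀ J : Ideal (AdjoinRoot p), ∃ a, J ^ e = Ideal.span {a}) →
        ∀ J : Ideal (CR (ce F)), ∃ a, J ^ e = Ideal.span {a} := by
    rintro p rfl
    exact ⟨ded_ce, fun e h => h⟩
  have hpoly : (G3.ellS (0 : F) 16).polynomial = X ^ 2 - C (ce F) := by
    rw [G3.ellS_poly, ce_C]
    simp
  obtain ⟨k1, k2⟩ := key _ hpoly
  have : IsDedekindDomain (G3.ellS (0 : F) 16).CoordinateRing := k1
  have hΔ : (G3.ellS (0 : F) 16).Δ ≠ 0 := by
    rw [G3.ellS_disc]
    norm_num
  have hns : ∀ x y : F, (G3.ellS (0 : F) 16).Equation x y → (G3.ellS (0 : F) 16).Nonsingular x y := by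
    intro x y h
    exact (WeierstrassCurve.Affine.equation_iff_nonsingular_of_Δ_ne_zero hΔ).1 h
  have hsurj := G2.toClass_surj (W := G3.ellS (0 : F) 16) hns
  refine ⟨Nat.card (G3.ellS (0 : F) 16).Point, Nat.card_pos, k2 _ ?_⟩
  intro J
  show ∃ a : (G3.ellS (0 : F) 16).CoordinateRing,
    J ^ Nat.card (G3.ellS (0 : F) 16).Point = Ideal.span {a}
  rcases eq_or_ne J ⊥ with rfl | hJ
  · refine ⟨0, ?_⟩
    rw [← Ideal.zero_eq_bot, zero_pow Nat.card_pos.ne']
    simp
  · have hJm : J ∈ nonZeroDivisors (Ideal (G3.ellS (0 : F) 16).CoordinateRing) :=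
      mem_nonZeroDivisors_of_ne_zero hJ
    obtain ⟨Q, hQ⟩ := hsurj (Additive.ofMul (ClassGroup.mk0 ⟨J, hJm⟩))
    have h1 : ClassGroup.mk0 ⟨J, hJm⟩ ^ Nat.card (G3.ellS (0 : F) 16).Point = 1 := by
      apply Additive.ofMul.injective
      rw [ofMul_pow, ← hQ, ← map_nsmul, card_nsmul_eq_zero', map_zero]
      rfl
    rw [← map_pow] at h1
    have h0 : (⟨J ^ Nat.card (G3.ellS (0 : F) 16).Point, pow_mem hJm _⟩ :
        nonZeroDivisors (Ideal (G3.ellS (0 : F) 16).CoordinateRing)) =
        ⟨J, hJm⟩ ^ Nat.card (G3.ellS (0 : F) 16).Point :=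
      Subtype.ext (by rw [SubmonoidClass.coe_pow])
    have h2 := (ClassGroup.mk0_eq_one_iff (I := J ^ Nat.card (G3.ellS (0 : F) 16).Point)
      (pow_mem hJm _)).1 (by rw [h0]; exact h1)
    obtain ⟨a, ha⟩ := h2.principal
    exact ⟨a, ha⟩

/-! ### The class group -/

theorem expB {B : Type} [CommRing B] [IsDedekindDomain B] [Algebra (CR (sx F)) B] [Algebra F B]
    [IsScalarTower F (CR (sx F)) B] [IsLocalization.Away (pp (X ^ 2 - 1) : CR (sx F)) B]
    (h2 : ¬ IsSquare (2 : F)) (e : ℕ) (he : ∀ J : Ideal (CR (ce F)), ∃ a, J ^ e = Ideal.span {a})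
    {I : Ideal B} (hI : I ≠ ⊥) : ∃ a, I ^ (3 * (e * 4)) = Ideal.span {a} := by
  have := ded_qc h2
  let σ : B ≃+* B := RingEquiv.ofRingHom (sig F B) (sig F B) (RingHom.ext sig_sig) (RingHom.ext sig_sig)
  let ρ : B ≃+* B := RingEquiv.ofRingHom (rho F B) ((rho F B).comp (rho F B))
    (RingHom.ext rho3) (RingHom.ext rho3)
  refine exponent3 (σ := σ) (ρ := ρ) rho3 sig_rho e 4 (fun I hI => ?_) (fun I hI => ?_) hI
  · obtain ⟨J, hJ⟩ := exists_map_eq (ι := Fin 2) (phe F B) (![RingEquiv.refl B, σ]) (fun z => by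
      obtain ⟨r, w, hw, hr⟩ := norm_sig (F := F) z
      refine ⟨r, w, hw, ?_⟩
      rw [hr, Fin.prod_univ_two]
      rfl) hI
    rw [Fin.prod_univ_two] at hJ
    obtain ⟨a, ha⟩ := he J
    refine ⟨phe F B a, ?_⟩
    have e1 : I.map ((![RingEquiv.refl B, σ] : Fin 2 → B ≃+* B) 0 : B →+* B) = I := by
      show I.map ((RingEquiv.refl B : B ≃+* B) : B →+* B) = I
      exact Ideal.map_id I
    have e2 : I.map ((![RingEquiv.refl B, σ] : Fin 2 → B ≃+* B) 1 : B →+* B) =
        I.map (σ : B →+* B) := rfl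
    rw [e1, e2] at hJ
    rw [← hJ, ← Ideal.map_pow, ha, Ideal.map_span, Set.image_singleton]
  · obtain ⟨J, hJ⟩ := exists_map_eq (ι := Fin 3) (phc F B) (![RingEquiv.refl B, ρ, ρ.trans ρ])
      (fun z => by
      obtain ⟨r, hr⟩ := norm_rho (F := F) z
      refine ⟨r, 1, isUnit_one, ?_⟩
      rw [hr, Fin.prod_univ_three, one_mul]
      rfl) hI
    rw [Fin.prod_univ_three] at hJ
    obtain ⟨a, ha⟩ := exp_C h2 J
    refine ⟨phc F B a, ?_⟩
    have e1 : I.map ((![RingEquiv.refl B, ρ, ρ.trans ρ] : Fin 3 → B ≃+* B) 0 : B →+* B) = I := by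
      show I.map ((RingEquiv.refl B : B ≃+* B) : B →+* B) = I
      exact Ideal.map_id I
    have e2 : I.map ((![RingEquiv.refl B, ρ, ρ.trans ρ] : Fin 3 → B ≃+* B) 1 : B →+* B) =
        I.map (ρ : B →+* B) := rfl
    have e3 : I.map ((![RingEquiv.refl B, ρ, ρ.trans ρ] : Fin 3 → B ≃+* B) 2 : B →+* B) =
        (I.map (ρ : B →+* B)).map (ρ : B →+* B) := by
      rw [Ideal.map_map]; rfl
    rw [e1, e2, e3] at hJ
    rw [← hJ, ← Ideal.map_pow, ha, Ideal.map_span, Set.image_singleton]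

theorem not_sq128 (h2 : ¬ IsSquare (2 : F)) : ¬ IsSquare (128 : F) := by
  rintro ⟨r, hr⟩
  apply h2
  refine ⟨r / 8, ?_⟩
  field_simp
  linear_combination hr

theorem expA (h2 : ¬ IsSquare (2 : F)) (e : ℕ)
    (he : ∀ J : Ideal (CR (ce F)), ∃ a, J ^ e = Ideal.span {a})
    {I : Ideal (CR (sx F))} (hI : I ≠ ⊥) : ∃ a, I ^ (3 * (e * 4)) = Ideal.span {a} := by
  have := ded_sx h2
  have hne : (X ^ 2 - 1 : F[X]) ≠ 0 := (monic_X_pow_sub_C 1 two_ne_zero).ne_zero
  have hx0 : (pp (X ^ 2 - 1) : CR (sx F)) ≠ 0 := by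
    intro h
    exact hne (pp_inj (by rw [h, map_zero]))
  have hM : Submonoid.powers (pp (X ^ 2 - 1) : CR (sx F)) ≤ nonZeroDivisors _ :=
    powers_le_nonZeroDivisors_of_noZeroDivisors hx0
  have hdom : IsDomain (Localization.Away (pp (X ^ 2 - 1) : CR (sx F))) :=
    IsLocalization.isDomain_localization hM
  have hded : IsDedekindDomain (Localization.Away (pp (X ^ 2 - 1) : CR (sx F))) :=
    IsLocalization.isDedekindDomain (CR (sx F)) hM _
  have hIB : I.map (algebraMap (CR (sx F)) (Localization.Away (pp (X ^ 2 - 1) : CR (sx F)))) ≠ ⊥ := by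
    intro h
    exact hI ((Ideal.map_eq_bot_iff_of_injective (IsLocalization.injective _ hM)).1 h)
  obtain ⟨b, hb⟩ := expB (B := Localization.Away (pp (X ^ 2 - 1) : CR (sx F))) h2 e he hIB
  rw [← Ideal.map_pow] at hb
  refine descendP (pp (X ^ 2 - 1) : CR (sx F)) hx0 (fun n K hK => ?_) hb
  have hfac : (pp (X ^ 2 - 1) : CR (sx F)) = pp (X - C 1) * pp (X - C (-1)) := by
    rw [← map_mul]
    congr 1
    rw [C_neg, C_1]
    ring
  rw [hfac] at hK
  have ev1 : (sx F).eval 1 = 128 := by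
    have := hom_sx (F := F) (evalRingHom 1)
    rw [coe_evalRingHom, eval_X] at this
    rw [this]
    norm_num
  have ev2 : (sx F).eval (-1) = 128 := by
    have := hom_sx (F := F) (evalRingHom (-1))
    rw [coe_evalRingHom, eval_X] at this
    rw [this]
    norm_num
  exact dvd_two (prime_lin 1 (by rw [ev1]; exact not_sq128 h2))
    (prime_lin (-1) (by rw [ev2]; exact not_sq128 h2)) n K hK

/-- **The class group of the affine curve `y² = 2 x⁶ - 30 x⁴ + 150 x² + 6` has finite exponent**, if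
`2` is not a square in the field and `Y² + Y = X³` has finitely many points. -/
theorem class_exp (h2 : ¬ IsSquare (2 : F)) [Finite (E27 F).toAffine.Point] [IsDomain (CR (sx F))] :
    ∃ n, 0 < n ∧ ∀ c : ClassGroup (CR (sx F)), c ^ n = 1 := by
  obtain ⟨e, he0, he⟩ := ell_exp (F := F)
  have := ded_sx h2
  refine ⟨3 * (e * 4), by omega, fun c => ?_⟩
  obtain ⟨I, rfl⟩ := ClassGroup.mk0_surjective c
  obtain ⟨a, ha⟩ := expA h2 e he (I := (I : Ideal (CR (sx F)))) (nonZeroDivisors.coe_ne_zero I)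
  have h0 : I ^ (3 * (e * 4)) = ⟨(I : Ideal (CR (sx F))) ^ (3 * (e * 4)), pow_mem I.2 _⟩ :=
    Subtype.ext (SubmonoidClass.coe_pow _ _)
  rw [← map_pow, h0, ClassGroup.mk0_eq_one_iff]
  exact ⟨⟨a, ha⟩⟩

end Pool.Agent.K7.H65.G4
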