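import Pool.Agent.K7.H70.AS.V

set_option autoImplicit false
set_option linter.unusedSectionVars false

/-!
# The bound of Hasse, and the square root of two, in the subfields of the tower
-/

namespace Pool.Agent.K7.H65.G4

open NumberField IsDedekindDomain WithZero
open Pool.Agent.K7.H56
open Pool.Agent.R430
open Pool.Agent.Y696
open Pool.Agent.K7.H70.AS
open Pool.Agent.W189.NF (aV eV)

section

/-- there is a prime above two -/
theorem exists_two (M : Type) [Field M] [NumberField M] :
    ∃ v : HeightOneSpectrum (𝓞 M), ((2 : ℕ) : 𝓞 M) ∈ v.asIdeal := by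
  have h20 : ((2 : ℕ) : 𝓞 M) ≠ 0 := by
    rw [Nat.cast_ne_zero]; norm_num
  have h2 : ¬ IsUnit ((2 : ℕ) : 𝓞 M) := by
    rintro h
    have h3 : IsUnit (Algebra.norm ℤ ((2 : ℕ) : 𝓞 M)) := h.map _
    have h4 : Algebra.norm ℤ ((2 : ℕ) : 𝓞 M) = (2 : ℤ) ^ Module.finrank ℤ (𝓞 M) := by
      have := Algebra.norm_algebraMap (R := ℤ) (S := 𝓞 M) (2 : ℤ)
      rw [← this]
      simp
    rw [h4] at h3
    have h5 : Module.finrank ℤ (𝓞 M) ≠ 0 := by
      rw [RingOfIntegers.rank]
      exact Module.finrank_pos.ne'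
    have h6 := (isUnit_pow_iff h5).1 h3
    rw [Int.isUnit_iff] at h6
    omega
  obtain ⟨m, hm, hm'⟩ := Ideal.exists_le_maximal (Ideal.span {((2 : ℕ) : 𝓞 M)}) (by
    rw [Ne, Ideal.span_singleton_eq_top]; exact h2)
  have h5 : ((2 : ℕ) : 𝓞 M) ∈ m := hm' (Ideal.mem_span_singleton_self _)
  refine ⟨⟨m, hm.isPrime, ?_⟩, h5⟩
  rintro rfl
  exact h20 ((Ideal.mem_bot).1 h5)

/-- two is not a square in a field which is unramified at two -/
theorem not_sq_two {M : Type} [Field M] [NumberField M] (h : Unr2 M) : ¬ IsSquare (2 : M) := by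
  rintro ⟨r, hr⟩
  obtain ⟨v, hv⟩ := exists_two M
  have h1 := h v hv
  rw [hr, map_mul] at h1
  have hr0 : v.valuation M r ≠ 0 := by
    intro h0
    rw [h0, mul_zero] at h1
    exact exp_ne_zero h1.symm
  obtain ⟨n, hn⟩ : ∃ n : ℤ, v.valuation M r = exp n := ⟨_, (exp_log hr0).symm⟩
  rw [hn, ← exp_add] at h1
  have := exp_injective h1
  omega

variable {F0 K : Type} [Field F0] [NumberField F0] [IsCyclotomicExtension {3} ℚ F0]
  [Field K] [NumberField K] [Algebra F0 K] [IsGalois F0 K] {k : Type} [Field k] [NumberField k]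
  [Algebra k K]

theorem hasse_two (core : Core3) (hn : ∃ n : ℕ, Module.finrank F0 K = 2 ^ n) (hg : GoodRam F0 K) :
    (∀ v : HeightOneSpectrum (𝓞 k), HBd (aV (E0 k) v) (eV (E0 k) v)
      (Pool.Agent.H921R2.TatePole.nm v)) ∧ ¬ IsSquare (2 : k) := by
  obtain ⟨r, hr⟩ := hn
  by_cases hns : ∀ x : k, x ^ 2 ≠ -3
  · obtain ⟨a0, ha0⟩ := exists_sqrt3 (F0 := F0)
    set a : K := algebraMap F0 K a0 with haK
    have ha : a ^ 2 = -3 := by rw [haK, ← map_pow, ha0, map_neg, map_ofNat]
    set M : IntermediateField k K := IntermediateField.adjoin k {a} with hM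
    have haM : a ∈ M := IntermediateField.mem_adjoin_simple_self k a
    obtain ⟨f, hf⟩ := exists_alg (F0 := F0) (K := K) (M := M) (a := ⟨a, haM⟩)
      (Subtype.ext (by
        show a ^ 2 = algebraMap M K (-3)
        rw [map_neg, map_ofNat]
        exact ha))
    let _ : Algebra F0 M := f.toAlgebra
    let φ : M →ₐ[F0] K :=
      { (algebraMap M K) with
        commutes' := fun x => by
          show algebraMap M K (f x) = algebraMap F0 K x
          rw [← hf]
          rfl }
    obtain ⟨ι, n, hd, hGM, hB⟩ := gen_big (F0 := F0) (K := K) core hr hg φ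
    have hirr : Irreducible (Polynomial.X ^ 2 - Polynomial.C (-3 : k)) := by
      rw [X_pow_sub_C_irreducible_iff_of_prime Nat.prime_two]
      exact fun b => hns b
    have hmin : minpoly k a = Polynomial.X ^ 2 - Polynomial.C (-3 : k) := by
      refine (minpoly.eq_of_irreducible_of_monic hirr ?_ (Polynomial.monic_X_pow_sub_C _ two_ne_zero)).symm
      rw [map_sub, map_pow, Polynomial.aeval_X, Polynomial.aeval_C, map_neg, map_ofNat, ha, sub_self]
    have hint : IsIntegral k a := by
      refine ⟨Polynomial.X ^ 2 - Polynomial.C (-3 : k), Polynomial.monic_X_pow_sub_C _ two_ne_zero, ?_⟩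
      rw [Polynomial.eval₂_sub, Polynomial.eval₂_pow, Polynomial.eval₂_X, Polynomial.eval₂_C, map_neg,
        map_ofNat, ha, sub_self]
    have h3 := IntermediateField.adjoin.finrank hint
    rw [hmin, Polynomial.natDegree_X_pow_sub_C] at h3
    obtain ⟨τ, Q⟩ := mkQdN (K₀ := k) h3 hGM.val3_small hns (iE ι)
    refine ⟨Q.hasseN, ?_⟩
    rintro ⟨t, ht⟩
    apply not_sq_two (M := M) hGM.two
    refine ⟨algebraMap k M t, ?_⟩
    rw [← map_mul, ← ht, map_ofNat]
  · push Not at hns
    obtain ⟨x, hx⟩ := hns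
    obtain ⟨f, hf⟩ := exists_alg (F0 := F0) (K := K) (M := k) hx
    let _ : Algebra F0 k := f.toAlgebra
    let φ : k →ₐ[F0] K :=
      { (algebraMap k K) with
        commutes' := fun x => by
          show algebraMap k K (f x) = algebraMap F0 K x
          rw [← hf]
          rfl }
    obtain ⟨ι, n, hd, hGM, hB⟩ := gen_big (F0 := F0) (K := K) core hr hg φ
    exact ⟨hasseN (iE ι) hGM.three, not_sq_two (M := k) hGM.two⟩

end

end Pool.Agent.K7.H65.G4
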